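import Pool.Agent.H184.Gomoku.Env

set_option autoImplicit false

/-!
# Five in a row: the predicate `Win` is invariant under lattice symmetries
-/

namespace Pool.Agent.H184.Gomoku

/-- `e` maps every line of five cells into a line of five cells. -/
def LineMap (e : Cell → Cell) : Prop :=
  ∀ a d : Cell, d ∈ dirs → ∃ a' d' : Cell, d' ∈ dirs ∧
      ∀ k : ℕ, k < 5 → ∃ k' : ℕ, k' < 5 ∧ e (a + (k : ℤ) • d) = a' + (k' : ℤ) • d'

theorem dirs_smul_inj {d : Cell} (hd : d ∈ dirs) {m n : ℤ} (h : m • d = n • d) : m = n := by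
  have h1 : m * d.1 = n * d.1 := by simpa using congrArg Prod.fst h
  have h2 : m * d.2 = n * d.2 := by simpa using congrArg Prod.snd h
  simp only [dirs, Finset.mem_insert, Finset.mem_singleton] at hd
  rcases hd with rfl | rfl | rfl | rfl
  · simpa using h1
  · simpa using h2
  · simpa using h1
  · simpa using h1

theorem five_image {e : Cell → Cell} (he : Function.Injective e) (h : LineMap e) {S : Set Cell}
    (hS : Five S) : Five (e '' S) := by
  obtain ⟨a, d, hd, hk⟩ := hS
  obtain ⟨a', d', hd', h'⟩ := h a d hd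
  choose g hg1 hg2 using h'
  let f : Fin 5 → Fin 5 := fun k => ⟨g k k.2, hg1 k k.2⟩
  have hf : Function.Injective f := by
    intro k₁ k₂ hkk
    have h1 : g k₁ k₁.2 = g k₂ k₂.2 := congrArg Fin.val hkk
    have h2 : e (a + ((k₁ : ℕ) : ℤ) • d) = e (a + ((k₂ : ℕ) : ℤ) • d) := by
      rw [hg2 k₁ k₁.2, hg2 k₂ k₂.2, h1]
    have h3 := add_left_cancel (he h2)
    have h4 := dirs_smul_inj hd h3
    exact Fin.ext (by exact_mod_cast h4)
  have hsurj := Finite.surjective_of_injective hf
  refine ⟨a', d', hd', fun k hk5 => ?_⟩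
  obtain ⟨j, hj⟩ := hsurj ⟨k, hk5⟩
  have hj' : g j j.2 = k := congrArg Fin.val hj
  refine ⟨a + ((j : ℕ) : ℤ) • d, hk j j.2, ?_⟩
  rw [hg2 j j.2, hj']

theorem five_image_iff {e : Cell ≃ Cell} (h : LineMap e) (h' : LineMap e.symm) {S : Set Cell} :
    Five (e '' S) ↔ Five S := by
  constructor
  · intro hS
    have := five_image e.symm.injective h' hS
    rwa [Equiv.symm_image_image] at this
  · exact five_image e.injective h

theorem S_sym_proof : S_sym := by
  intro e h h' n
  induction n with
  | zero => intro A D hW; exact hW.elim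
  | succ n ih =>
    rintro A D ⟨x, hxA, hxD, hx⟩
    refine ⟨e x, ?_, ?_, ?_⟩
    · rintro ⟨z, hz, hzx⟩
      exact hxA (e.injective hzx ▸ hz)
    · rintro ⟨z, hz, hzx⟩
      exact hxD (e.injective hzx ▸ hz)
    · rcases hx with hx | hx
      · left
        rw [← Set.image_insert_eq]
        exact (five_image_iff h h').2 hx
      · right
        intro y hy1 hy2
        obtain ⟨y', rfl⟩ := e.surjective y
        rw [← Set.image_insert_eq] at hy1 ⊢
        rw [← Set.image_insert_eq]
        have h1 : y' ∉ insert x A := fun hc => hy1 ⟨y', hc, rfl⟩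
        have h2 : y' ∉ D := fun hc => hy2 ⟨y', hc, rfl⟩
        obtain ⟨h3, h4⟩ := hx y' h1 h2
        exact ⟨fun hc => h3 ((five_image_iff h h').1 hc), ih _ _ h4⟩

theorem lineMap_of_add {f : Cell → Cell} (hadd : ∀ a b, f (a + b) = f a + f b)
    (hf : ∀ d ∈ dirs, f d ∈ dirs ∨ -(f d) ∈ dirs) : LineMap f := by
  let F : Cell →+ Cell := AddMonoidHom.mk' f hadd
  have hF : ∀ (k : ℤ) (d : Cell), f (k • d) = k • f d := fun k d => map_zsmul F k d
  intro a d hd
  rcases hf d hd with h | h
  · refine ⟨f a, f d, h, fun k hk => ⟨k, hk, ?_⟩⟩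
    rw [hadd, hF]
  · refine ⟨f a + (4 : ℤ) • f d, -(f d), h, fun k hk => ⟨4 - k, by omega, ?_⟩⟩
    have : ((4 - k : ℕ) : ℤ) = 4 - (k : ℤ) := by omega
    rw [hadd, hF, this, smul_neg, sub_smul]
    abel

theorem lineMap_translate (v : Cell) : LineMap (fun c => c + v) := by
  intro a d hd
  exact ⟨a + v, d, hd, fun k hk => ⟨k, hk, by simp only []; abel⟩⟩

/-- translations -/
theorem win_translate (v : Cell) {n : ℕ} {A D : Set Cell} (h : Win n A D) :
    Win n ((fun c : Cell => c + v) '' A) ((fun c : Cell => c + v) '' D) := by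
  refine S_sym_proof (Equiv.addRight v) (lineMap_translate v) ?_ n A D h
  have h2 := lineMap_translate (-v)
  intro a d hd
  obtain ⟨a', d', h3, h4⟩ := h2 a d hd
  refine ⟨a', d', h3, fun k hk => ?_⟩
  obtain ⟨k', h5, h6⟩ := h4 k hk
  exact ⟨k', h5, by simpa using h6⟩

/-- the reflection `(x, y) ↦ (y, x)` -/
theorem lineMap_swap : LineMap (fun c : Cell => (c.2, c.1)) := by
  refine lineMap_of_add (fun a b => rfl) ?_
  intro d hd
  simp only [dirs, Finset.mem_insert, Finset.mem_singleton] at hd
  rcases hd with rfl | rfl | rfl | rfl <;> simp [dirs]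

/-- the reflection `(x, y) ↦ (-x, y)` -/
theorem lineMap_negx : LineMap (fun c : Cell => (-c.1, c.2)) := by
  refine lineMap_of_add (fun a b => by ext <;> simp; ring) ?_
  intro d hd
  simp only [dirs, Finset.mem_insert, Finset.mem_singleton] at hd
  rcases hd with rfl | rfl | rfl | rfl <;> simp [dirs]

/-- the reflection `(x, y) ↦ (x, -y)` -/
theorem lineMap_negy : LineMap (fun c : Cell => (c.1, -c.2)) := by
  refine lineMap_of_add (fun a b => by ext <;> simp; ring) ?_
  intro d hd
  simp only [dirs, Finset.mem_insert, Finset.mem_singleton] at hd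
  rcases hd with rfl | rfl | rfl | rfl <;> simp [dirs]

/-- an involution that maps lines to lines preserves `Win` -/
theorem win_involution {f : Cell → Cell} (hf : Function.Involutive f) (hl : LineMap f) {n : ℕ}
    {A D : Set Cell} (h : Win n A D) : Win n (f '' A) (f '' D) :=
  S_sym_proof (Function.Involutive.toPerm f hf) hl hl n A D h

theorem win_swap {n : ℕ} {A D : Set Cell} (h : Win n A D) :
    Win n ((fun c : Cell => (c.2, c.1)) '' A) ((fun c : Cell => (c.2, c.1)) '' D) :=
  win_involution (fun _ => rfl) lineMap_swap h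

theorem win_negx {n : ℕ} {A D : Set Cell} (h : Win n A D) :
    Win n ((fun c : Cell => (-c.1, c.2)) '' A) ((fun c : Cell => (-c.1, c.2)) '' D) :=
  win_involution (fun c => by simp) lineMap_negx h

theorem win_negy {n : ℕ} {A D : Set Cell} (h : Win n A D) :
    Win n ((fun c : Cell => (c.1, -c.2)) '' A) ((fun c : Cell => (c.1, -c.2)) '' D) :=
  win_involution (fun c => by simp) lineMap_negy h

end Pool.Agent.H184.Gomoku
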