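import Pool.Agent.H724.DL.Stm

/-!
# Correctness of the code (DL-K2)
-/

set_option autoImplicit false

namespace Pool.Agent.H323.DLK2

open Pool.Agent.H724.DL

/-- code of an action -/
def hc : Act → ℕ
  | .zero => 0
  | .keep => 1
  | .inc => 2

/-- the table of the control -/
noncomputable def Fc {B : Type} {k s : ℕ} (g : Bool → B → Fin k → Option (B × Act))
    (e : B ≃ Fin s) (b a : ℕ) (f : Bool) : ℕ :=
  if h : b < s ∧ a < k then
    match g f (e.symm ⟨b, h.1⟩) ⟨a, h.2⟩ with
    | none => s * 3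
    | some r => (e r.1 : ℕ) * 3 + hc r.2
  else s * 3

/-- the list of the table -/
noncomputable def Lc {B : Type} {k s : ℕ} (g : Bool → B → Fin k → Option (B × Act))
    (e : B ≃ Fin s) : List ℕ :=
  (List.range ((s + 1) * k * 2)).map fun j =>
    Fc g e (j / 2 / k) (j / 2 % k) (decide (j % 2 = 1))

lemma getD_map_range (n i d : ℕ) (f : ℕ → ℕ) (h : i < n) :
    ((List.range n).map f).getD i d = f i := by
  simp [List.getD_eq_getElem?_getD, h]

lemma getD_map_range' (n i : ℕ) (d : List ℕ) (f : ℕ → List ℕ) (h : i < n) :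
    ((List.range n).map f).getD i d = f i := by
  simp [List.getD_eq_getElem?_getD, h]

lemma Lc_get {B : Type} {k s : ℕ} (g : Bool → B → Fin k → Option (B × Act))
    (e : B ≃ Fin s) (b a dl : ℕ) (hb : b < s + 1) (ha : a < k) (hd : dl < 2) :
    (Lc g e).getD ((b * k + a) * 2 + dl) 0 = Fc g e b a (decide (dl = 1)) := by
  have h1 : b * k + a < (s + 1) * k := by
    calc b * k + a < b * k + k := by omega
      _ = (b + 1) * k := by ring
      _ ≤ (s + 1) * k := Nat.mul_le_mul_right _ hb
  unfold Lc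
  rw [getD_map_range _ _ _ _ (by omega)]
  have h2 : ((b * k + a) * 2 + dl) / 2 = b * k + a := by omega
  have h3 : ((b * k + a) * 2 + dl) % 2 = dl := by omega
  have h4 : (b * k + a) / k = b := by
    rw [Nat.add_comm, Nat.add_mul_div_right _ _ (by omega), Nat.div_eq_of_lt ha]; omega
  have h5 : (b * k + a) % k = a := by
    rw [Nat.add_comm, Nat.add_mul_mod_self_right, Nat.mod_eq_of_lt ha]
  rw [h2, h3, h4, h5]

/-- the simulation relation -/
def Rel {B : Type} {s : ℕ} (e : B ≃ Fin s) (n q : ℕ) : Option (B × Fin (n + 2)) → Prop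
  | none => q < (n + 2) * (s + 1) ∧ q % (s + 1) = s
  | some r => q < (n + 2) * (s + 1) ∧ q % (s + 1) = (e r.1 : ℕ) ∧ q / (s + 1) = (r.2 : ℕ)

lemma Rel.lt {B : Type} {s : ℕ} {e : B ≃ Fin s} {n q : ℕ} {st : Option (B × Fin (n + 2))}
    (h : Rel e n q st) : q < (n + 2) * (s + 1) := by
  cases st with
  | none => exact h.1
  | some r => exact h.1

lemma mk_div (m s b : ℕ) (hb : b < s + 1) : (m * (s + 1) + b) / (s + 1) = m := by
  rw [Nat.add_comm, Nat.add_mul_div_right _ _ (by omega), Nat.div_eq_of_lt hb]; omega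

lemma mk_mod (m s b : ℕ) (hb : b < s + 1) : (m * (s + 1) + b) % (s + 1) = b := by
  rw [Nat.add_comm, Nat.add_mul_mod_self_right, Nat.mod_eq_of_lt hb]

lemma mk_lt (m M s b : ℕ) (hb : b < s + 1) (hm : m < M) : m * (s + 1) + b < M * (s + 1) := by
  calc m * (s + 1) + b < m * (s + 1) + (s + 1) := by omega
    _ = (m + 1) * (s + 1) := by ring
    _ ≤ M * (s + 1) := Nat.mul_le_mul_right _ hm

lemma step {B : Type} {k s : ℕ} (g : Bool → B → Fin k → Option (B × Act))
    (e : B ≃ Fin s) (n q : ℕ) (st : Option (B × Fin (n + 2))) (a : Fin k) (h : Rel e n q st) :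
    Rel e n (tabE (Lc g e) (s + 1) k n q a) (gstep g n st a) := by
  have hmod : q % (s + 1) < s + 1 := Nat.mod_lt _ (by omega)
  set dl := if q / (s + 1) = n then 1 else 0 with hdl
  have hdl2 : dl < 2 := by rw [hdl]; split_ifs <;> omega
  have hget : (Lc g e).getD ((q % (s + 1) * k + a) * 2 + dl) 0
      = Fc g e (q % (s + 1)) a (decide (dl = 1)) := Lc_get g e _ _ _ hmod a.2 hdl2
  have htab : tabE (Lc g e) (s + 1) k n q a =
      (if Fc g e (q % (s + 1)) a (decide (dl = 1)) % 3 = 0 then 0
        else if Fc g e (q % (s + 1)) a (decide (dl = 1)) % 3 = 1 then q / (s + 1)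
        else min (q / (s + 1) + 1) (n + 1)) * (s + 1) +
        Fc g e (q % (s + 1)) a (decide (dl = 1)) / 3 := by
    unfold tabE
    rw [← hdl, hget]
  have hnone : ∀ st' : Option (B × Fin (n + 2)), Fc g e (q % (s + 1)) a (decide (dl = 1)) = s * 3 →
      st' = none → Rel e n (tabE (Lc g e) (s + 1) k n q a) st' := by
    intro st' h1 h2
    rw [htab, h1, h2]
    have e1 : s * 3 % 3 = 0 := by omega
    have e2 : s * 3 / 3 = s := by omega
    rw [if_pos e1, e2]
    exact ⟨mk_lt 0 (n + 2) s s (by omega) (by omega), mk_mod 0 s s (by omega)⟩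
  cases st with
  | none =>
    refine hnone _ ?_ rfl
    unfold Fc
    rw [dif_neg (by rw [h.2]; omega)]
  | some r =>
    obtain ⟨b, i⟩ := r
    obtain ⟨hq, hb, hi⟩ := h
    simp only at hb hi
    have hdec : (decide (dl = 1)) = decide (i.val = n) := by
      rw [hdl, hi]
      by_cases hh : (i : ℕ) = n
      · simp [hh]
      · simp [hh]
    have hF : Fc g e (q % (s + 1)) a (decide (dl = 1)) =
        match g (decide (i.val = n)) b a with
        | none => s * 3
        | some r => (e r.1 : ℕ) * 3 + hc r.2 := by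
      rw [hb, hdec]
      unfold Fc
      rw [dif_pos ⟨(e b).2, a.2⟩]
      have e1 : e.symm ⟨((e b : Fin s) : ℕ), (e b).2⟩ = b := by
        rw [Fin.eta, Equiv.symm_apply_apply]
      rw [e1]
    have hgs : gstep g n (some (b, i)) a =
        (g (decide (i.val = n)) b a).map fun r => (r.1, act n r.2 i) := rfl
    rw [hgs]
    cases hg : g (decide (i.val = n)) b a with
    | none =>
      rw [hg] at hF
      exact hnone _ hF rfl
    | some r =>
      rw [hg] at hF
      simp only at hF
      rw [htab, hF, Option.map_some]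
      have hlt : ((e r.1 : Fin s) : ℕ) < s + 1 := by have := (e r.1).2; omega
      have hii := i.2
      obtain ⟨b', ac⟩ := r
      cases ac with
      | zero =>
        have e1 : ((e b' : Fin s) * 3 + hc Act.zero) % 3 = 0 := by simp [hc]
        have e2 : ((e b' : Fin s) * 3 + hc Act.zero) / 3 = (e b' : ℕ) := by simp [hc]
        rw [if_pos e1, e2]
        exact ⟨mk_lt 0 _ _ _ hlt (by omega), mk_mod 0 _ _ hlt, by
          rw [mk_div 0 _ _ hlt]; rfl⟩
      | keep =>
        have e1 : ((e b' : Fin s) * 3 + hc Act.keep) % 3 = 1 := by simp only [hc]; omega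
        have e2 : ((e b' : Fin s) * 3 + hc Act.keep) / 3 = (e b' : ℕ) := by simp [hc]; omega
        rw [if_neg (by rw [e1]; omega), if_pos e1, e2, hi]
        exact ⟨mk_lt _ _ _ _ hlt hii, mk_mod _ _ _ hlt, by
          rw [mk_div _ _ _ hlt]; rfl⟩
      | inc =>
        have e1 : ((e b' : Fin s) * 3 + hc Act.inc) % 3 = 2 := by simp only [hc]; omega
        have e2 : ((e b' : Fin s) * 3 + hc Act.inc) / 3 = (e b' : ℕ) := by simp [hc]; omega
        rw [if_neg (by rw [e1]; omega), if_neg (by rw [e1]; omega), e2, hi]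
        exact ⟨mk_lt _ _ _ _ hlt (by omega), mk_mod _ _ _ hlt, by
          rw [mk_div _ _ _ hlt]; rfl⟩

lemma code_get (L : List ℕ) (s' k n q a : ℕ) (hq : q < (n + 2) * s') (ha : a < k) :
    ((codeOf L s' k n).1.getD q []).getD a 0 = tabE L s' k n q a := by
  unfold codeOf
  simp only
  rw [getD_map_range' _ _ _ _ hq, getD_map_range _ _ _ _ ha]

lemma run {B : Type} {k s : ℕ} (g : Bool → B → Fin k → Option (B × Act))
    (e : B ≃ Fin s) (n : ℕ) : ∀ (w : List (Fin k)) (q : ℕ) (st : Option (B × Fin (n + 2))),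
    Rel e n q st →
    Rel e n (w.foldl (fun (q : ℕ) (a : Fin k) =>
        ((codeOf (Lc g e) (s + 1) k n).1.getD q []).getD (a : ℕ) 0) q)
      (w.foldl (gstep g n) st) := by
  intro w
  induction w with
  | nil => intro q st h; exact h
  | cons a w ih =>
    intro q st h
    rw [List.foldl_cons, List.foldl_cons]
    apply ih
    rw [code_get _ _ _ _ _ _ h.lt a.2]
    exact step g e n q st a h

lemma mem_acc (s n q : ℕ) (hq : q < (n + 2) * (s + 1)) (L : List ℕ) (k : ℕ) :
    q ∈ (codeOf L (s + 1) k n).2 ↔ q % (s + 1) = s := by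
  unfold codeOf
  simp only [List.mem_map, List.mem_range, Nat.add_sub_cancel]
  constructor
  · rintro ⟨i, -, rfl⟩
    exact mk_mod i s s (by omega)
  · intro h
    refine ⟨q / (s + 1), (Nat.div_lt_iff_lt_mul (by omega)).2 hq, ?_⟩
    have := Nat.div_add_mod q (s + 1)
    rw [h] at this
    rw [Nat.mul_comm]
    exact this

lemma foldl_coe {k : ℕ} (f : ℕ → ℕ → ℕ) (w : List (Fin k)) (q : ℕ) :
    List.foldl f q (do
      let a ← w
      pure (a : ℕ)) = List.foldl (fun (q : ℕ) (a : Fin k) => f q a) q w := by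
  rw [bind_pure_comp, List.map_eq_map, List.foldl_map]

theorem k2 : S_K2 := by
  intro B _ b0 k g
  obtain ⟨s, ⟨e0⟩⟩ := Finite.exists_equiv_fin B
  have hs : 0 < s := Nat.pos_of_ne_zero (fun h => by subst h; exact (e0 b0).elim0)
  set e : B ≃ Fin s := e0.trans (Equiv.swap (e0 b0) ⟨0, hs⟩) with he
  have he0 : (e b0 : ℕ) = 0 := by
    rw [he, Equiv.trans_apply, Equiv.swap_apply_left]
  refine ⟨Lc g e, s + 1, fun n w => ?_⟩
  have h0 : Rel e n 0 (some (b0, 0)) :=
    ⟨by positivity, by rw [Nat.zero_mod]; exact he0.symm, by rw [Nat.zero_div]; rfl⟩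
  have h1 := run g e n w 0 _ h0
  rw [foldl_coe, mem_acc s n _ h1.lt]
  cases hst : w.foldl (gstep g n) (some (b0, 0)) with
  | none =>
    rw [hst] at h1
    exact ⟨fun _ => rfl, fun _ => h1.2⟩
  | some r =>
    rw [hst] at h1
    constructor
    · intro h2
      have h3 := h1.2.1
      rw [h2] at h3
      have := (e r.1).2
      omega
    · intro h2
      cases h2

end Pool.Agent.H323.DLK2
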