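import Pool.Agent.H867.FT.Gen11
import Pool.Agent.H25.FT867IND
import Pool.Agent.H404.FT867CRT

/-! Project FT (helper867), task CIL (helper323): `Dq p C` and `CI S Φ` differ by a factor. -/

set_option autoImplicit false

namespace Pool.Agent.H323.FT867CIL

open Pool.Agent.H867.FT

/-- `Φ(v R) = 0` only for `v = 0`. -/
theorem phi_inj {p : ℕ} (hp : 1 ≤ p) {R K : Type} [CommRing R] [IsDomain R] [Field K] [Algebra R K]
    [IsFractionRing R K] {Φ : K →+ K} (hΦ : IsCartier p Φ) (hΦ0 : Φ ≠ 0) {v : K}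
    (hv : ∀ r : R, Φ (v * algebraMap R K r) = 0) : v = 0 := by
  by_contra hv0
  apply hΦ0
  ext x
  obtain ⟨a, s, hs, has⟩ := IsFractionRing.div_surjective (A := R) (x / v)
  have hs0 : algebraMap R K s ≠ 0 := IsFractionRing.to_map_ne_zero_of_mem_nonZeroDivisors hs
  have h1 : x = (algebraMap R K s)⁻¹ ^ p * (v * algebraMap R K (a * s ^ (p - 1))) := by
    have h2 : x = v * (algebraMap R K a / algebraMap R K s) := by
      rw [has, mul_div_cancel₀ _ hv0]
    rw [h2, map_mul, map_pow, inv_pow]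
    have h3 : algebraMap R K s ^ p = algebraMap R K s ^ (p - 1) * algebraMap R K s := by
      rw [← pow_succ, Nat.sub_add_cancel hp]
    rw [h3]
    have h4 : algebraMap R K s ^ (p - 1) ≠ 0 := pow_ne_zero _ hs0
    field_simp
  rw [h1, hΦ, hv, mul_zero]
  rfl

theorem cil (h : S_CIK) : S_CIL := by
  intro p hp P S K _ _ _ _ _ _ _ _ _ _ _ _ _ _ C hP hF hC Φ hΦ hΦ0
  obtain ⟨E, hE, hr, ha, hm⟩ := Pool.Agent.H404.FT867CRT.crt p 1 P S K C hP hC
  have hp1 : 1 ≤ p := hp.out.one_lt.le
  have hu : ∀ φ : {φ : S →+ S // IsCartier (p ^ 1) φ}, ∃ u : K,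
      ∀ r, algebraMap S K (φ.1 r) = Φ (u * algebraMap S K r) := by
    rintro ⟨φ, hφ⟩
    have h1 : IsCartier p φ := by
      rw [pow_one] at hφ
      exact hφ
    exact h p S K hF Φ hΦ hΦ0 φ h1
  choose U hU using hu
  have hinj : Function.Injective (algebraMap S K) := IsFractionRing.injective S K
  -- uniqueness
  have huniq : ∀ u v : K, (∀ r : S, Φ (u * algebraMap S K r) = Φ (v * algebraMap S K r)) →
      u = v := by
    intro u v huv
    rw [← sub_eq_zero]
    refine phi_inj (R := S) hp1 hΦ hΦ0 fun r => ?_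
    rw [sub_mul, map_sub, huv, sub_self]
  obtain ⟨z, hz, hzE⟩ := Pool.Agent.H25.FT867IND.key U E (fun φ ψ hφψ => by
      apply Subtype.ext
      ext r
      apply hinj
      rw [hU, hU, hφψ]) hE
    (fun φ ψ χ hχ => by
      apply huniq
      intro r
      rw [← hU, hχ, map_add, hU, hU, add_mul, map_add]) ha
    (fun r φ ψ hψ => by
      apply huniq
      intro s
      rw [← hU, hψ, hU, map_mul (algebraMap S K)]
      congr 1
      ring) hm
  refine ⟨z, hz, ?_⟩
  ext β
  rw [hr, Submodule.mem_span_singleton_mul]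
  constructor
  · rintro ⟨φ, rfl⟩
    exact ⟨U φ, fun r => ⟨φ.1 r, (hU φ r).symm⟩, (hzE φ).symm⟩
  · rintro ⟨u, hu, rfl⟩
    have hu' : ∀ r : S, ∃ c : S, Φ (u * algebraMap S K r) = algebraMap S K c := hu
    choose c hc using hu'
    have hcadd : ∀ a b, c (a + b) = c a + c b := by
      intro a b
      apply hinj
      rw [map_add, ← hc, ← hc, ← hc, map_add, mul_add, map_add]
    have hcart : IsCartier (p ^ 1) (AddMonoidHom.mk' c hcadd) := by
      intro r s
      apply hinj
      change algebraMap S K (c (r ^ p ^ 1 * s)) = algebraMap S K (r * c s)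
      rw [map_mul (algebraMap S K), ← hc, ← hc, pow_one, ← hΦ, map_mul (algebraMap S K), map_pow (algebraMap S K)]
      congr 1
      ring
    refine ⟨⟨AddMonoidHom.mk' c hcadd, hcart⟩, ?_⟩
    rw [hzE]
    congr 1
    apply huniq
    intro r
    rw [← hU, hc]
    rfl

end Pool.Agent.H323.FT867CIL
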