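import Pool.Agent.H867.FT.Gen5

/-!
# Coefficient fields of complete local rings of characteristic `p`
-/

set_option autoImplicit false

namespace Pool.Agent.H323.FT867COE

open Pool.Agent.H867.FT

noncomputable section

variable {p : ℕ} [Fact p.Prime] {S : Type} [CommRing S] [CharP S p] {I : Ideal S}
  [CharP (S ⧸ I) p] [IsAdicComplete I S]

/-- the Teichmüller map is additive in characteristic `p` -/
theorem teich_add (x y : Perfection (S ⧸ I) p) :
    Perfection.teichmuller₀ p I (x + y) =
      Perfection.teichmuller₀ p I x + Perfection.teichmuller₀ p I y := by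
  have : ExpChar S p := ExpChar.prime Fact.out
  refine Perfection.teichmuller₀_spec fun n => ?_
  refine ⟨(Perfection.coeff _ p n x).out + (Perfection.coeff _ p n y).out, by simp, ?_⟩
  rw [add_pow_char_pow]
  refine (Perfection.teichmuller₀_sModEq ?_).symm.add (Perfection.teichmuller₀_sModEq ?_).symm <;>
    simp

/-- the Teichmüller map as a homomorphism of rings -/
def teich (p : ℕ) [Fact p.Prime] {S : Type} [CommRing S] [CharP S p] (I : Ideal S)
    [CharP (S ⧸ I) p] [IsAdicComplete I S] : Perfection (S ⧸ I) p →+* S where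
  toFun := Perfection.teichmuller₀ p I
  map_one' := map_one _
  map_mul' := map_mul _
  map_zero' := map_zero _
  map_add' := teich_add

theorem coe : S_COE := by
  intro p _ S _ _ _ _ _
  have hc : CharP (S ⧸ IsLocalRing.maximalIdeal S) p := by
    have h1 : ((p : ℕ) : S ⧸ IsLocalRing.maximalIdeal S) = 0 := by
      have h2 : ((p : ℕ) : S) = 0 := CharP.cast_eq_zero S p
      have h3 := congrArg (Ideal.Quotient.mk (IsLocalRing.maximalIdeal S)) h2
      rwa [map_natCast, map_zero] at h3
    have : Nontrivial (S ⧸ IsLocalRing.maximalIdeal S) :=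
      Ideal.Quotient.nontrivial_iff.2 (IsLocalRing.maximalIdeal.isMaximal S).ne_top
    exact (CharP.charP_iff_prime_eq_zero Fact.out).2 h1
  have hc' : CharP (IsLocalRing.ResidueField S) p := hc
  have he : ExpChar (IsLocalRing.ResidueField S) p := ExpChar.prime Fact.out
  have hP : PerfectRing (IsLocalRing.ResidueField S) p := PerfectField.toPerfectRing p
  let ι : IsLocalRing.ResidueField S →+* S ⧸ IsLocalRing.maximalIdeal S :=
    RingHom.id (IsLocalRing.ResidueField S)
  let L : IsLocalRing.ResidueField S →+* Perfection (S ⧸ IsLocalRing.maximalIdeal S) p :=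
    Perfection.lift p (IsLocalRing.ResidueField S) (S ⧸ IsLocalRing.maximalIdeal S) ι
  refine ⟨(teich p (IsLocalRing.maximalIdeal S)).comp L, fun a => ?_⟩
  exact Perfection.mk_teichmuller₀ (I := IsLocalRing.maximalIdeal S) (L a)

end

end Pool.Agent.H323.FT867COE
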