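import Pool.Agent.H867.FT.Gen5

/-!
# Evaluation of power series in a complete local ring
-/

set_option autoImplicit false

namespace Pool.Agent.H323.FT867EVL

open Pool.Agent.H867.FT

open Filter Topology

theorem evl : S_EVL := by
  intro k S _ _ _ _ _ σ d x hx
  let _ : WithIdeal S := ⟨IsLocalRing.maximalIdeal S⟩
  let _ : UniformSpace k := ⊥
  have hd : DiscreteTopology k := inferInstance
  have hu : IsUniformAddGroup k := inferInstance
  obtain ⟨h1, h2⟩ := (IsAdic.isAdicComplete_iff (I := IsLocalRing.maximalIdeal S) rfl).1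
    inferInstance
  have hφ : Continuous σ := continuous_of_discreteTopology
  have ha : MvPowerSeries.HasEval x := by
    refine ⟨fun i => ?_, ?_⟩
    · rw [IsTopologicallyNilpotent, (IsLocalRing.maximalIdeal S).hasBasis_nhds_zero_adic.tendsto_right_iff]
      intro N _
      filter_upwards [eventually_ge_atTop N] with n hn
      exact Ideal.pow_le_pow_right hn (Ideal.pow_mem_pow (hx i) n)
    · rw [cofinite_eq_bot]
      exact tendsto_bot
  refine ⟨MvPowerSeries.eval₂Hom hφ ha, fun c => ?_, fun i => ?_⟩
  · rw [MvPowerSeries.coe_eval₂Hom, MvPowerSeries.eval₂_C]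
  · rw [MvPowerSeries.coe_eval₂Hom, MvPowerSeries.eval₂_X]

end Pool.Agent.H323.FT867EVL
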