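import Pool.Agent.H867.FT.Gen11

/-! Project FT (helper867), task FBC (helper323): flat base change for `CI`. -/

set_option autoImplicit false

namespace Pool.Agent.H323.FT867FBC

open Pool.Agent.H867.FT

/-- `Φ(v R) = 0` only for `v = 0`. -/
theorem phi_inj {p : ℕ} (hp : 1 ≤ p) {R K : Type} [CommRing R] [IsDomain R] [Field K] [Algebra R K]
    [IsFractionRing R K] {Φ : K →+ K} (hΦ : IsCartier p Φ) (hΦ0 : Φ ≠ 0) {v : K}
    (hv : ∀ r : R, Φ (v * algebraMap R K r) = 0) : v = 0 := by
  by_contra hv0
  apply hΦ0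
  ext x
  obtain ⟨a, s, hs, has⟩ := IsFractionRing.div_surjective (A := R) (x / v)
  have hs0 : algebraMap R K s ≠ 0 := IsFractionRing.to_map_ne_zero_of_mem_nonZeroDivisors hs
  have h1 : x = (algebraMap R K s)⁻¹ ^ p * (v * algebraMap R K (a * s ^ (p - 1))) := by
    have h2 : x = v * (algebraMap R K a / algebraMap R K s) := by
      rw [has, mul_div_cancel₀ _ hv0]
    rw [h2, map_mul, map_pow, inv_pow]
    have h3 : algebraMap R K s ^ p = algebraMap R K s ^ (p - 1) * algebraMap R K s := by
      rw [← pow_succ, Nat.sub_add_cancel hp]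
    rw [h3]
    have h4 : algebraMap R K s ^ (p - 1) ≠ 0 := pow_ne_zero _ hs0
    field_simp
  rw [h1, hΦ, hv, mul_zero]
  rfl

/-- generators over the `p`-th powers -/
theorem exists_gens {p : ℕ} [Fact p.Prime] {R : Type} [CommRing R] [CharP R p]
    (h : (frobenius R p).Finite) : ∃ (N : ℕ) (r : Fin N → R), ∀ x : R, ∃ b : Fin N → R,
      x = ∑ k, b k ^ p * r k := by
  obtain ⟨N, r, hr⟩ := @Module.Finite.exists_fin R R _ _ (frobenius R p).toAlgebra.toModule h
  refine ⟨N, r, fun x => ?_⟩
  have hx : x ∈ @Submodule.span R R _ _ (frobenius R p).toAlgebra.toModule (Set.range r) := by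
    rw [hr]
    trivial
  obtain ⟨c, hc⟩ := (@Submodule.mem_span_range_iff_exists_fun _ R R _ _ _
    (frobenius R p).toAlgebra.toModule r x).1 hx
  exact ⟨c, hc.symm⟩

/-- descent for subspaces along a flat map -/
theorem flat_claim {R T K K' : Type} [CommRing R] [IsDomain R] [IsNoetherianRing R] [CommRing T]
    [IsDomain T] [Algebra R T] [Module.Flat R T] [Field K] [Algebra R K] [IsFractionRing R K]
    [Field K'] [Algebra T K'] [IsFractionRing T K'] (j : K →+* K')
    (hj : ∀ r : R, j (algebraMap R K r) = algebraMap T K' (algebraMap R T r)) {N : ℕ}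
    (U : Submodule K (Fin N → K)) {n : ℕ} (c : Fin n → K') (g : Fin n → Fin N → K)
    (hg : ∀ a, g a ∈ U) (y : Fin N → T)
    (hy : ∀ k, algebraMap T K' (y k) = ∑ a, c a * j (g a k)) :
    ∃ (q : ℕ) (t : Fin q → T) (z : Fin q → Fin N → R),
      (∀ l, (fun k => algebraMap R K (z l k)) ∈ U) ∧
      ∀ k, y k = ∑ l, t l * algebraMap R T (z l k) := by
  classical
  let Λ : Submodule R (Fin N → R) :=
    { carrier := {a | ∀ u ∈ U, ∑ k, algebraMap R K (a k) * u k = 0}
      zero_mem' := by
        intro u _
        refine Finset.sum_eq_zero fun k _ => ?_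
        rw [Pi.zero_apply, map_zero, zero_mul]
      add_mem' := by
        intro a b ha hb u hu
        have h1 : ∑ k, algebraMap R K ((a + b) k) * u k =
            ∑ k, algebraMap R K (a k) * u k + ∑ k, algebraMap R K (b k) * u k := by
          rw [← Finset.sum_add_distrib]
          refine Finset.sum_congr rfl fun k _ => ?_
          rw [Pi.add_apply, map_add, add_mul]
        rw [h1, ha u hu, hb u hu, add_zero]
      smul_mem' := by
        intro s a ha u hu
        have h1 : ∑ k, algebraMap R K ((s • a) k) * u k =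
            algebraMap R K s * ∑ k, algebraMap R K (a k) * u k := by
          rw [Finset.mul_sum]
          refine Finset.sum_congr rfl fun k _ => ?_
          rw [Pi.smul_apply, smul_eq_mul, map_mul, mul_assoc]
        rw [h1, ha u hu, mul_zero] }
  have injK' : Function.Injective (algebraMap T K') := IsFractionRing.injective T K'
  have injK : Function.Injective (algebraMap R K) := IsFractionRing.injective R K
  have hgf : (Fintype.linearCombination R y) ∘ₗ Λ.subtype = 0 := by
    apply LinearMap.ext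
    rintro ⟨a, ha⟩
    rw [LinearMap.comp_apply, Submodule.subtype_apply, Fintype.linearCombination_apply,
      LinearMap.zero_apply]
    apply injK'
    rw [map_zero, map_sum]
    have h1 : ∀ k, algebraMap T K' (a k • y k) = ∑ l, c l * j (algebraMap R K (a k) * g l k) := by
      intro k
      rw [Algebra.smul_def, map_mul, ← hj, hy, Finset.mul_sum]
      refine Finset.sum_congr rfl fun l _ => ?_
      rw [map_mul]
      ring
    rw [Finset.sum_congr rfl fun k _ => h1 k, Finset.sum_comm]
    refine Finset.sum_eq_zero fun l _ => ?_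
    rw [← Finset.mul_sum, ← map_sum, ha _ (hg l), map_zero, mul_zero]
  obtain ⟨q, A, Y, hYA, hAf⟩ := Module.Flat.exists_factorization_of_comp_eq_zero_of_free hgf
  have hY : ∀ v : Fin q →₀ R, Y v = ∑ l, v l • Y (Finsupp.single l 1) := by
    intro v
    conv_lhs => rw [← Finsupp.univ_sum_single v]
    rw [map_sum]
    refine Finset.sum_congr rfl fun l _ => ?_
    rw [← map_smul, Finsupp.smul_single, smul_eq_mul, mul_one]
  refine ⟨q, fun l => Y (Finsupp.single l 1), fun l k => A (fun i => if k = i then 1 else 0) l,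
    fun l => ?_, fun k => ?_⟩
  · by_contra hcon
    obtain ⟨f, hf, hUf⟩ := Submodule.exists_le_ker_of_notMem hcon
    apply hf
    obtain ⟨b, hb⟩ := IsLocalization.exist_integer_multiples_of_finite (nonZeroDivisors R)
      (fun k : Fin N => f (fun i => if k = i then 1 else 0))
    choose a ha using hb
    have hb0 : (algebraMap R K (b : R)) ≠ 0 := by
      rw [Ne, map_eq_zero_iff _ injK]
      exact nonZeroDivisors.coe_ne_zero b
    have hsum : ∀ u : Fin N → K, ∑ k, algebraMap R K (a k) * u k = algebraMap R K b * f u := by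
      intro u
      rw [LinearMap.pi_apply_eq_sum_univ f u, Finset.mul_sum]
      refine Finset.sum_congr rfl fun k _ => ?_
      rw [ha, Algebra.smul_def, smul_eq_mul]
      ring
    have haΛ : a ∈ Λ := by
      intro u hu
      rw [hsum, LinearMap.mem_ker.1 (hUf hu), mul_zero]
    have h1 : A a = 0 := by
      have h2 := LinearMap.congr_fun hAf ⟨a, haΛ⟩
      exact h2
    apply mul_left_cancel₀ hb0
    rw [← hsum, mul_zero]
    have h2 : ∑ k, a k * A (fun i => if k = i then 1 else 0) l = 0 := by
      have h3 : (A a) l = ∑ k, a k * A (fun i => if k = i then 1 else 0) l := by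
        rw [LinearMap.pi_apply_eq_sum_univ A a, Finsupp.finsetSum_apply]
        refine Finset.sum_congr rfl fun k _ => ?_
        rw [Finsupp.smul_apply, smul_eq_mul]
      rw [← h3, h1, Finsupp.zero_apply]
    have h4 := congrArg (algebraMap R K) h2
    rw [map_zero, map_sum] at h4
    rw [← h4]
    refine Finset.sum_congr rfl fun k _ => ?_
    rw [map_mul]
  · have h1 : Fintype.linearCombination R y (fun i => if k = i then 1 else 0) = y k := by
      rw [Fintype.linearCombination_apply, Finset.sum_eq_single k]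
      · rw [if_pos rfl, one_smul]
      · intro i _ hi
        rw [if_neg fun h => hi h.symm, zero_smul]
      · intro h
        exact absurd (Finset.mem_univ _) h
    rw [← h1, hYA, LinearMap.comp_apply, hY]
    refine Finset.sum_congr rfl fun l _ => ?_
    rw [Algebra.smul_def, mul_comm]

/-- evaluation -/
theorem exp2 {p m : ℕ} {K K' : Type} [Field K] [Field K'] {j : K →+* K'} {z : K'} {Φ : K →+ K}
    {Φ' : K' →+ K'} (hΦ' : IsCartier p Φ')
    (hΦΦ : ∀ (x : K) (n : ℕ), n ≤ 2 * m - 2 →
      Φ' (j x * z ^ n) = if n = m - 1 then j (Φ x) else 0)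
    (n : Fin m → ℕ) (c : ∀ i, Fin (n i) → K') (w : ∀ i, Fin (n i) → K) (x : K) (i : Fin m) :
    Φ' ((∑ i', ∑ a, c i' a ^ p * (j (w i' a) * z ^ (i' : ℕ))) *
      (j x * z ^ (Fin.rev i : ℕ))) = ∑ a, c i a * j (Φ (w i a * x)) := by
  have key : ∀ (i' : Fin m) (a : Fin (n i')),
      Φ' (c i' a ^ p * (j (w i' a) * z ^ (i' : ℕ)) * (j x * z ^ (Fin.rev i : ℕ))) =
        c i' a * (if (i' : ℕ) + (Fin.rev i : ℕ) = m - 1 then j (Φ (w i' a * x)) else 0) := by
    intro i' a
    have e : c i' a ^ p * (j (w i' a) * z ^ (i' : ℕ)) * (j x * z ^ (Fin.rev i : ℕ)) =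
        c i' a ^ p * (j (w i' a * x) * z ^ ((i' : ℕ) + (Fin.rev i : ℕ))) := by
      rw [map_mul, pow_add]
      ring
    rw [e, hΦ', hΦΦ]
    have h1 := i'.2
    have h2 := (Fin.rev i).2
    omega
  rw [Finset.sum_mul, map_sum, Finset.sum_eq_single i]
  · rw [Finset.sum_mul, map_sum]
    refine Finset.sum_congr rfl fun a _ => ?_
    rw [key, if_pos]
    rw [Fin.val_rev]
    have h1 := i.2
    omega
  · intro i' _ hne
    rw [Finset.sum_mul, map_sum]
    refine Finset.sum_eq_zero fun a _ => ?_
    rw [key, if_neg, mul_zero]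
    intro h
    apply hne
    rw [Fin.val_rev] at h
    have h1 := i.2
    apply Fin.ext
    omega
  · intro h
    exact absurd (Finset.mem_univ _) h

/-- expansion in `t` -/
theorem exp1 {p m : ℕ} {R T K K' : Type} [CommRing R] [CommRing T] [Algebra R T] [Field K]
    [Algebra R K] [Field K'] [Algebra T K'] {j : K →+* K'}
    (hj : ∀ r : R, j (algebraMap R K r) = algebraMap T K' (algebraMap R T r)) {Z : T}
    {Φ' : K' →+ K'} (hΦ' : IsCartier p Φ') {n : ℕ} (b : Fin n → Fin m → T) (s : Fin n → R)
    (x : K') :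
    Φ' (x * algebraMap T K' (∑ a, ∑ i, b a i ^ p * (algebraMap R T (s a) * Z ^ (i : ℕ)))) =
      ∑ a, ∑ i, algebraMap T K' (b a i) *
        Φ' (x * (j (algebraMap R K (s a)) * algebraMap T K' Z ^ (i : ℕ))) := by
  rw [map_sum, Finset.mul_sum, map_sum]
  refine Finset.sum_congr rfl fun a _ => ?_
  rw [map_sum, Finset.mul_sum, map_sum]
  refine Finset.sum_congr rfl fun i _ => ?_
  rw [← hΦ', hj, map_mul (algebraMap T K'), map_mul (algebraMap T K'), map_pow (algebraMap T K'),
    map_pow (algebraMap T K')]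
  congr 1
  ring

theorem fbc : S_FBC := by
  intro p m hp R T K K' _ _ _ _ _ _ _ _ _ _ _ _ _ _ _ j hj hF hm Z Φ Φ' hΦ hΦ0 hΦ' hΦΦ hT
  have hp1 : 1 ≤ p := hp.out.one_lt.le
  obtain ⟨N, r, hr⟩ := exists_gens hF
  have injK' : Function.Injective (algebraMap T K') := IsFractionRing.injective T K'
  have injK : Function.Injective (algebraMap R K) := IsFractionRing.injective R K
  have hΦ'0 : Φ' ≠ 0 := by
    intro h0
    apply hΦ0
    ext x
    have h1 := hΦΦ x (m - 1) (by omega)
    rw [if_pos rfl, h0] at h1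
    have h2 : j (Φ x) = 0 := h1.symm
    exact (map_eq_zero j).1 h2
  apply le_antisymm
  · rw [Submodule.span_le]
    rintro _ ⟨w, hw, rfl⟩ t
    have hw' : ∀ r : R, ∃ c : R, Φ (w * algebraMap R K r) = algebraMap R K c := hw
    choose c hc using hw'
    obtain ⟨n, b, s, rfl⟩ := hT t
    refine ⟨∑ a, ∑ i : Fin m, b a i * (if (i : ℕ) = m - 1 then algebraMap R T (c (s a)) else 0), ?_⟩
    rw [exp1 hj hΦ', map_sum]
    refine Finset.sum_congr rfl fun a _ => ?_
    rw [map_sum]
    refine Finset.sum_congr rfl fun i _ => ?_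
    have h1 := i.2
    rw [← mul_assoc, ← map_mul j, hΦΦ _ _ (by omega), map_mul (algebraMap T K')]
    congr 1
    split_ifs
    · rw [hc, hj]
    · rw [map_zero]
  · intro v hv
    have hv' : ∀ t : T, ∃ c : T, Φ' (v * algebraMap T K' t) = algebraMap T K' c := hv
    choose cT hcT using hv'
    -- the subspace
    let U : Submodule K (Fin N → K) :=
      { carrier := {y | ∃ u : K, ∀ k, y k = Φ (u * algebraMap R K (r k))}
        zero_mem' := ⟨0, fun k => by rw [zero_mul, map_zero]; rfl⟩
        add_mem' := by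
          rintro a b ⟨u, hu⟩ ⟨w, hw⟩
          exact ⟨u + w, fun k => by rw [Pi.add_apply, hu, hw, add_mul, map_add]⟩
        smul_mem' := by
          rintro s a ⟨u, hu⟩
          exact ⟨s ^ p * u, fun k => by
            rw [Pi.smul_apply, hu, smul_eq_mul, mul_assoc, hΦ]⟩ }
    -- the expansion of `v`
    obtain ⟨n, d, s, hvd⟩ : ∃ (n : ℕ) (d : Fin m → Fin n → K') (s : Fin n → R),
        v = ∑ i, ∑ a, d i a ^ p * (j (algebraMap R K (s a)) * algebraMap T K' Z ^ (i : ℕ)) := by
      obtain ⟨t, e, he, hte⟩ := IsFractionRing.div_surjective (A := T) v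
      have he0 : algebraMap T K' e ≠ 0 := IsFractionRing.to_map_ne_zero_of_mem_nonZeroDivisors he
      obtain ⟨n, b, s, hb⟩ := hT (t * e ^ (p - 1))
      refine ⟨n, fun i a => algebraMap T K' (b a i) / algebraMap T K' e, s, ?_⟩
      have h1 : v * algebraMap T K' e ^ p = algebraMap T K' (t * e ^ (p - 1)) := by
        rw [← hte, map_mul, map_pow]
        have h3 : algebraMap T K' e ^ p = algebraMap T K' e * algebraMap T K' e ^ (p - 1) := by
          rw [← pow_succ', Nat.sub_add_cancel hp1]
        rw [h3, ← mul_assoc, div_mul_cancel₀ _ he0]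
      apply mul_right_cancel₀ (pow_ne_zero p he0)
      rw [h1, hb, map_sum, Finset.sum_comm, Finset.sum_mul]
      refine Finset.sum_congr rfl fun a _ => ?_
      rw [map_sum, Finset.sum_mul]
      refine Finset.sum_congr rfl fun i _ => ?_
      rw [map_mul, map_mul, map_pow, map_pow, hj, div_pow]
      field_simp
    have hval : ∀ (i : Fin m) (k : Fin N),
        Φ' (v * (j (algebraMap R K (r k)) * algebraMap T K' Z ^ (Fin.rev i : ℕ))) =
          ∑ a, d i a * j (Φ (algebraMap R K (s a) * algebraMap R K (r k))) := by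
      intro i k
      have h1 := exp2 hΦ' hΦΦ (fun _ => n) d (fun _ a => algebraMap R K (s a))
        (algebraMap R K (r k)) i
      rw [← hvd] at h1
      exact h1
    have hyT : ∀ (i : Fin m) (k : Fin N),
        algebraMap T K' (cT (algebraMap R T (r k) * Z ^ (Fin.rev i : ℕ))) =
          ∑ a, d i a * j (Φ (algebraMap R K (s a) * algebraMap R K (r k))) := by
      intro i k
      rw [← hcT, ← hval, hj, map_mul (algebraMap T K'), map_pow (algebraMap T K')]
    have hcl : ∀ i : Fin m, ∃ (q : ℕ) (t : Fin q → T) (z : Fin q → Fin N → R),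
        (∀ l, (fun k => algebraMap R K (z l k)) ∈ U) ∧
        ∀ k, cT (algebraMap R T (r k) * Z ^ (Fin.rev i : ℕ)) =
          ∑ l, t l * algebraMap R T (z l k) := fun i =>
      flat_claim j hj U (d i)
        (fun a k => Φ (algebraMap R K (s a) * algebraMap R K (r k)))
        (fun a => ⟨algebraMap R K (s a), fun k => rfl⟩) _ (hyT i)
    choose q t z hzU hz using hcl
    have hzU' : ∀ i l, ∃ u : K, ∀ k, algebraMap R K (z i l k) = Φ (u * algebraMap R K (r k)) :=
      fun i l => hzU i l
    choose w hw using hzU'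
    -- the `w` are in `CI R Φ`
    have hwCI : ∀ i l, w i l ∈ CI R Φ := by
      intro i l x
      obtain ⟨b, hb⟩ := hr x
      refine ⟨∑ k, b k * z i l k, ?_⟩
      rw [hb, map_sum, Finset.mul_sum, map_sum, map_sum]
      refine Finset.sum_congr rfl fun k _ => ?_
      rw [map_mul (algebraMap R K) (b k), hw, ← hΦ]
      congr 1
      rw [map_mul (algebraMap R K), map_pow (algebraMap R K)]
      ring
    have hv'eq : v = ∑ i, ∑ l, algebraMap T K' (t i l) ^ p *
        (j (w i l) * algebraMap T K' Z ^ (i : ℕ)) := by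
      rw [← sub_eq_zero]
      refine phi_inj (R := T) hp1 hΦ' hΦ'0 fun x => ?_
      obtain ⟨n', b, s', rfl⟩ := hT x
      rw [exp1 hj hΦ']
      refine Finset.sum_eq_zero fun a _ => Finset.sum_eq_zero fun i _ => ?_
      have h0 : ∀ k, Φ' ((v - ∑ i, ∑ l, algebraMap T K' (t i l) ^ p *
          (j (w i l) * algebraMap T K' Z ^ (i : ℕ))) *
          (j (algebraMap R K (r k)) * algebraMap T K' Z ^ (i : ℕ))) = 0 := by
        intro k
        have h1 := exp2 hΦ' hΦΦ q (fun i l => algebraMap T K' (t i l)) w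
          (algebraMap R K (r k)) (Fin.rev i)
        have h2 := hval (Fin.rev i) k
        rw [Fin.rev_rev] at h1 h2
        rw [sub_mul, map_sub, h1, h2, ← hyT, hz, map_sum, sub_eq_zero]
        refine Finset.sum_congr rfl fun l _ => ?_
        rw [map_mul, ← hj, hw]
      obtain ⟨β, hβ⟩ := hr (s' a)
      have h1 : Φ' ((v - ∑ i, ∑ l, algebraMap T K' (t i l) ^ p *
          (j (w i l) * algebraMap T K' Z ^ (i : ℕ))) *
          (j (algebraMap R K (s' a)) * algebraMap T K' Z ^ (i : ℕ))) = 0 := by
        rw [hβ, map_sum, map_sum, Finset.sum_mul, Finset.mul_sum, map_sum]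
        refine Finset.sum_eq_zero fun k _ => ?_
        have h2 : (v - ∑ i, ∑ l, algebraMap T K' (t i l) ^ p *
            (j (w i l) * algebraMap T K' Z ^ (i : ℕ))) *
            (j (algebraMap R K (β k ^ p * r k)) * algebraMap T K' Z ^ (i : ℕ)) =
            j (algebraMap R K (β k)) ^ p * ((v - ∑ i, ∑ l, algebraMap T K' (t i l) ^ p *
            (j (w i l) * algebraMap T K' Z ^ (i : ℕ))) *
            (j (algebraMap R K (r k)) * algebraMap T K' Z ^ (i : ℕ))) := by
          rw [map_mul, map_mul, map_pow, map_pow]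
          ring
        rw [h2, hΦ', h0, mul_zero]
      rw [h1, mul_zero]
    rw [hv'eq]
    refine Submodule.sum_mem _ fun i _ => Submodule.sum_mem _ fun l _ => ?_
    have h1 : algebraMap T K' (t i l) ^ p * (j (w i l) * algebraMap T K' Z ^ (i : ℕ)) =
        (t i l ^ p * Z ^ (i : ℕ)) • j (w i l) := by
      rw [Algebra.smul_def, map_mul, map_pow, map_pow]
      ring
    rw [h1]
    exact Submodule.smul_mem _ _ (Submodule.subset_span ⟨w i l, hwCI i l, rfl⟩)

end Pool.Agent.H323.FT867FBC
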