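import Pool.Agent.H468.QF.Stm

/-!
# HEN: 1-units are squares in completions, residue characteristic different from 2
-/

set_option autoImplicit false

namespace Pool.Agent.H323.QF

open WithZero NumberField IsDedekindDomain Filter Topology

theorem le_of_lt_exp {g : WithZero (Multiplicative ℤ)} {n : ℤ} (h : g < exp (n + 1)) :
    g ≤ exp n := by
  by_cases h0 : g = 0
  · rw [h0]; exact zero_le
  · rw [← exp_log h0] at h ⊢
    rw [exp_lt_exp] at h
    rw [exp_le_exp]
    omega

variable {K : Type} [Field K]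

/-- Newton iteration. -/
noncomputable def nw (z : K) : ℕ → K
  | 0 => 1
  | n + 1 => nw z n - (nw z n ^ 2 - z) / (2 * nw z n)

theorem nw_spec (v : Valuation K (WithZero (Multiplicative ℤ))) (h2 : v 2 = 1) {z : K}
    (hz : v (z - 1) < 1) (n : ℕ) :
    v (nw z n) = 1 ∧ v (nw z n ^ 2 - z) ≤ exp (-((n : ℤ) + 1)) := by
  induction n with
  | zero =>
    refine ⟨v.map_one, ?_⟩
    show v (1 ^ 2 - z) ≤ _
    rw [one_pow, Valuation.map_sub_swap]
    refine le_of_lt_exp ?_
    rw [show (-(((0 : ℕ) : ℤ) + 1) + 1) = 0 by norm_num, exp_zero]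
    exact hz
  | succ n ih =>
    obtain ⟨h3, h4⟩ := ih
    set x := nw z n with hx
    set e := x ^ 2 - z with he
    have hx0 : x ≠ 0 := by
      rintro h
      rw [h, map_zero] at h3
      exact zero_ne_one h3
    have h20 : (2 : K) ≠ 0 := by
      rintro h
      rw [h, map_zero] at h2
      exact zero_ne_one h2
    have hd : v (e / (2 * x)) = v e := by
      rw [map_div₀, map_mul, h2, h3, one_mul, div_one]
    have he1 : v e < 1 := by
      refine h4.trans_lt ?_
      rw [← exp_zero, exp_lt_exp]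
      omega
    have hs : nw z (n + 1) = x - e / (2 * x) := rfl
    rw [hs]
    refine ⟨?_, ?_⟩
    · rw [← h3]
      apply Valuation.map_sub_eq_of_lt_left
      rw [hd, h3]
      exact he1
    · have : (x - e / (2 * x)) ^ 2 - z = (e / (2 * x)) ^ 2 := by
        have : z = x ^ 2 - e := by rw [he]; ring
        rw [this]
        field_simp
        ring
      rw [this, map_pow, hd]
      calc v e ^ 2 ≤ exp (-((n : ℤ) + 1)) ^ 2 := pow_le_pow_left₀ zero_le h4 2
        _ = exp (2 • (-((n : ℤ) + 1))) := (exp_nsmul 2 _).symm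
        _ ≤ exp (-(((n + 1 : ℕ) : ℤ) + 1)) := by
          rw [exp_le_exp]
          push_cast
          rw [nsmul_eq_mul]
          push_cast
          omega

section

variable [hv : Valued K (WithZero (Multiplicative ℤ))]

theorem tendsto_zero {u : ℕ → K} (h : ∀ n : ℕ, hv.v (u n) ≤ exp (-((n : ℤ) + 1))) :
    Tendsto u atTop (𝓝 0) := by
  rw [(Valued.hasBasis_nhds_zero K (WithZero (Multiplicative ℤ))).tendsto_right_iff]
  intro γ _
  have hγ : MonoidWithZeroHom.ValueGroup₀.embedding γ.1 ≠ 0 := by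
    intro h0
    exact γ.ne_zero ((map_eq_zero _).1 h0)
  obtain ⟨N, hN⟩ : ∃ N : ℕ, -((N : ℤ) + 1) < log (MonoidWithZeroHom.ValueGroup₀.embedding γ.1) := by
    refine ⟨(-log (MonoidWithZeroHom.ValueGroup₀.embedding γ.1)).toNat, ?_⟩
    have := Int.self_le_toNat (-log (MonoidWithZeroHom.ValueGroup₀.embedding γ.1))
    omega
  filter_upwards [eventually_ge_atTop N] with n hn
  show hv.v.restrict (u n) < γ.1
  rw [Valuation.restrict_lt_iff_lt_embedding]
  refine (h n).trans_lt ?_
  rw [← exp_log hγ, exp_lt_exp]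
  omega

theorem sq_of_complete [CompleteSpace K] [T2Space K] (h2 : hv.v 2 = 1) {z : K}
    (hz : hv.v (z - 1) < 1) : IsSquare z := by
  have hsp := nw_spec hv.v h2 hz
  have _ : NonarchimedeanRing K :=
    (Valued.toUniformSpace_eq K (WithZero (Multiplicative ℤ))).symm ▸
      hv.v.subgroups_basis.nonarchimedean
  have hc : CauchySeq (nw z) := by
    refine NonarchimedeanAddGroup.cauchySeq_of_tendsto_sub_nhds_zero ?_
    refine tendsto_zero fun n => ?_
    have hs : nw z (n + 1) - nw z n = -((nw z n ^ 2 - z) / (2 * nw z n)) := by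
      show nw z n - (nw z n ^ 2 - z) / (2 * nw z n) - nw z n = _
      ring
    rw [hs, Valuation.map_neg, map_div₀, map_mul, h2, (hsp n).1, one_mul, div_one]
    exact (hsp n).2
  obtain ⟨y, hy⟩ := cauchySeq_tendsto_of_complete hc
  have h3 : Tendsto (fun n => nw z n ^ 2 - z) atTop (𝓝 (y ^ 2 - z)) := (hy.pow 2).sub_const z
  have h4 : Tendsto (fun n => nw z n ^ 2 - z) atTop (𝓝 0) := tendsto_zero fun n => (hsp n).2
  have h5 := tendsto_nhds_unique h3 h4
  exact ⟨y, by rw [← sq]; exact (sub_eq_zero.1 h5).symm⟩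

end

theorem t_HEN : Pool.Agent.H468.QF.S_HEN := by
  intro F _ _ v h2 z hz
  exact sq_of_complete h2 hz

end Pool.Agent.H323.QF
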