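import Pool.Agent.H468.QF.Stm

/-!
# TAM2, TAM4: the points with nonsingular reduction on 17a2
-/

set_option autoImplicit false

open scoped Classical

namespace Pool.Agent.H323.QF

open WithZero WeierstrassCurve
open Pool.Agent.H468.QF (E1 ns S_TAM2 S_TAM4)

variable {K : Type} [Field K]

/-- the curve over `K` -/
noncomputable abbrev WK (K : Type) [Field K] : Affine K := (E1.map (Int.castRingHom K)).toAffine

theorem a1 : (WK K).a₁ = 1 := by simp [E1]
theorem a2 : (WK K).a₂ = -4 := by simp [E1]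
theorem a3 : (WK K).a₃ = 0 := by simp [E1]
theorem a4 : (WK K).a₄ = -1 := by simp [E1]
theorem a6 : (WK K).a₆ = 0 := by simp [E1]

theorem eqn {x y : K} : (WK K).Equation x y ↔ y ^ 2 + x * y = x ^ 3 - 4 * x ^ 2 - x := by
  rw [Affine.equation_iff, a1, a2, a3, a4, a6]
  constructor <;> intro h <;> linear_combination h

theorem disc : (WK K).Δ = 289 := by
  rw [WeierstrassCurve.Δ, WeierstrassCurve.b₂, WeierstrassCurve.b₄, WeierstrassCurve.b₆,
    WeierstrassCurve.b₈, a1, a2, a3, a4, a6]
  norm_num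

/-- relations of the abscissas of three points on a line -/
theorem line {x₁ x₂ y₁ y₂ : K} (h₁ : (WK K).Equation x₁ y₁) (h₂ : (WK K).Equation x₂ y₂)
    (hxy : ¬(x₁ = x₂ ∧ y₁ = (WK K).negY x₂ y₂)) {x₃ : K}
    (h3 : x₃ = (WK K).addX x₁ x₂ ((WK K).slope x₁ x₂ y₁ y₂)) : ∃ l μ : K,
    (4 * x₁ + 1) + (4 * x₂ + 1) + (4 * x₃ + 1) = 18 + l ^ 2 ∧
    (4 * x₁ + 1) * (4 * x₂ + 1) + (4 * x₃ + 1) * ((4 * x₁ + 1) + (4 * x₂ + 1)) =
      17 - 2 * l * μ ∧
    (4 * x₁ + 1) * (4 * x₂ + 1) * (4 * x₃ + 1) = μ ^ 2 := by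
  have h := Affine.addPolynomial_slope h₁ h₂ hxy
  rw [← h3, Affine.addPolynomial_eq, neg_inj, Cubic.prod_X_sub_C_eq, Cubic.toPoly_injective, a1, a2,
    a3, a4, a6] at h
  set s := (WK K).slope x₁ x₂ y₁ y₂ with hs
  have e1 := congrArg Cubic.b h
  have e2 := congrArg Cubic.c h
  have e3 := congrArg Cubic.d h
  simp only at e1 e2 e3
  refine ⟨2 * s + 1, 8 * (y₁ - s * x₁) - (2 * s + 1), ?_, ?_, ?_⟩
  · linear_combination 4 * e1
  · linear_combination 8 * e1 - 16 * e2
  · linear_combination 64 * e3 - 16 * e2 + 4 * e1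

/-! ### values -/

section val

variable (w : Valuation K (WithZero (Multiplicative ℤ)))

theorem w2 (h17 : w (17 : K) < 1) : w (2 : K) = 1 := by
  have h1 : ∀ n : ℕ, w ((n : ℕ) : K) ≤ 1 := by
    intro n
    induction n with
    | zero => rw [Nat.cast_zero, map_zero]; exact zero_le
    | succ n ih =>
      rw [Nat.cast_succ]
      exact (w.map_add _ _).trans (max_le ih w.map_one.le)
  refine le_antisymm (by exact_mod_cast h1 2) ?_
  by_contra h
  push Not at h
  have h16 : w (16 : K) < 1 := by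
    have : (16 : K) = 2 ^ 4 := by norm_num
    rw [this, map_pow]
    exact pow_lt_one₀ zero_le h (by norm_num)
  have h3 : w (1 : K) < 1 := by
    have : (1 : K) = 17 - 16 := by norm_num
    rw [this]
    exact (w.map_sub _ _).trans_lt (max_lt h17 h16)
  rw [w.map_one] at h3
  exact lt_irrefl _ h3

theorem wnat (n : ℕ) : w ((n : ℕ) : K) ≤ 1 := by
  induction n with
  | zero => rw [Nat.cast_zero, map_zero]; exact zero_le
  | succ n ih =>
    rw [Nat.cast_succ]
    exact (w.map_add _ _).trans (max_le ih w.map_one.le)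

/-- closure under addition, the computation with values -/
theorem add_val (h17 : w (17 : K) < 1) (h2 : w (2 : K) = 1) {X₁ X₂ X₃ l μ : K}
    (e1 : X₁ + X₂ + X₃ = 18 + l ^ 2) (e2 : X₁ * X₂ + X₃ * (X₁ + X₂) = 17 - 2 * l * μ)
    (e3 : X₁ * X₂ * X₃ = μ ^ 2) (h1 : 1 ≤ w X₁) (h2' : 1 ≤ w X₂) : 1 ≤ w X₃ := by
  by_contra h3
  push Not at h3
  set a := w X₁ with ha
  set b := w X₂ with hb
  have hab1 : max a b ≤ a * b :=
    max_le (le_mul_of_one_le_right zero_le h2') (le_mul_of_one_le_left zero_le h1)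
  have hmax1 : 1 ≤ max a b := h1.trans (le_max_left _ _)
  have hab : 1 ≤ a * b := hmax1.trans hab1
  -- the second equation
  have s1 : w (X₃ * (X₁ + X₂)) < w (X₁ * X₂) := by
    rw [map_mul, map_mul]
    calc w X₃ * w (X₁ + X₂) ≤ w X₃ * max a b := mul_le_mul_right (w.map_add _ _) _
      _ < 1 * max a b := mul_lt_mul_of_pos_right h3 (zero_lt_one.trans_le hmax1)
      _ ≤ a * b := by rw [one_mul]; exact hab1
  have s2 : w (2 * l * μ) = a * b := by
    have h4 : w (X₁ * X₂ + X₃ * (X₁ + X₂)) = a * b := by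
      rw [w.map_add_eq_of_lt_left s1, map_mul]
    rw [e2] at h4
    have h5 : w (17 : K) < w (2 * l * μ) := by
      by_contra h6
      push Not at h6
      have h7 : w (17 - 2 * l * μ) ≤ w (17 : K) :=
        (w.map_sub _ _).trans (max_le le_rfl h6)
      rw [h4] at h7
      exact absurd (hab.trans h7) (not_le.2 h17)
    rwa [w.map_sub_eq_of_lt_right h5] at h4
  have s3 : w l * w μ = a * b := by
    rw [map_mul, map_mul, h2, one_mul] at s2
    exact s2
  have s4 : a * b * w X₃ = w μ ^ 2 := by
    rw [← map_pow, ← e3, map_mul, map_mul]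
  have s5 : w l ^ 2 * w X₃ = a * b := by
    have hne : a * b ≠ 0 := (zero_lt_one.trans_le hab).ne'
    have : (a * b) * (w l ^ 2 * w X₃) = (a * b) * (a * b) := by
      calc (a * b) * (w l ^ 2 * w X₃) = w l ^ 2 * (a * b * w X₃) := mul_left_comm _ _ _
        _ = w l ^ 2 * w μ ^ 2 := by rw [s4]
        _ = (w l * w μ) * (w l * w μ) := by rw [← mul_pow, sq]
        _ = _ := by rw [s3]
    exact mul_left_cancel₀ hne this
  have hl0 : 0 < w l ^ 2 := by
    rw [pos_iff_ne_zero]
    intro h0
    rw [h0, zero_mul] at s5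
    exact (zero_lt_one.trans_le hab).ne s5
  have s6 : a * b < w l ^ 2 := by
    rw [← s5]
    calc w l ^ 2 * w X₃ < w l ^ 2 * 1 := mul_lt_mul_of_pos_left h3 hl0
      _ = _ := mul_one _
  have s7 : w (l ^ 2) ≤ max a b := by
    have : l ^ 2 = (X₁ + X₂) + (X₃ - 18) := by linear_combination (-1 : K) * e1
    rw [this]
    refine (w.map_add _ _).trans (max_le (w.map_add _ _) ?_)
    refine (w.map_sub _ _).trans (max_le (h3.le.trans hmax1) ?_)
    refine le_trans ?_ hmax1
    exact_mod_cast wnat w 18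
  rw [map_pow] at s7
  exact absurd (s6.trans_le (s7.trans hab1)) (lt_irrefl _)

end val

/-! ### the subgroup of the points with nonsingular reduction -/

section grp

variable (w : Valuation K (WithZero (Multiplicative ℤ)))

/-- `P = O` or the value of `4 x + 1` is at least one. -/
def NP (P : (WK K).Point) : Prop := ∀ x y h, P = Affine.Point.some x y h → 1 ≤ w (4 * x + 1)

theorem np_add (h17 : w (17 : K) < 1) {P Q : (WK K).Point} (hP : NP w P) (hQ : NP w Q) :
    NP w (P + Q) := by
  rcases P with _ | ⟨x₁, y₁, h₁⟩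
  · have : (Affine.Point.zero : (WK K).Point) + Q = Q := zero_add Q
    rw [this]; exact hQ
  rcases Q with _ | ⟨x₂, y₂, h₂⟩
  · have : (Affine.Point.some x₁ y₁ h₁ : (WK K).Point) + Affine.Point.zero =
      Affine.Point.some x₁ y₁ h₁ := add_zero _
    rw [this]; exact hP
  by_cases hxy : x₁ = x₂ ∧ y₁ = (WK K).negY x₂ y₂
  · rw [Affine.Point.add_of_Y_eq hxy.1 hxy.2]
    intro x y h h'
    exact absurd h'.symm (Affine.Point.some_ne_zero h)
  · rw [Affine.Point.add_some hxy]
    intro x y h h'
    rw [Affine.Point.some.injEq] at h'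
    obtain ⟨l, μ, e1, e2, e3⟩ := line h₁.1 h₂.1 hxy h'.1.symm
    exact add_val w h17 (w2 w h17) e1 e2 e3 (hP _ _ _ rfl) (hQ _ _ _ rfl)

/-- the subgroup -/
noncomputable def NS (h17 : w (17 : K) < 1) : AddSubgroup (WK K).Point where
  carrier := {P | NP w P}
  add_mem' := fun hP hQ => np_add w h17 hP hQ
  zero_mem' := fun x y h h' => absurd h'.symm (Affine.Point.some_ne_zero h)
  neg_mem' := by
    intro P hP
    rcases P with _ | ⟨x₁, y₁, h₁⟩
    · exact hP
    · intro x y h h'
      rw [Affine.Point.neg_some, Affine.Point.some.injEq] at h'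
      rw [← h'.1]
      exact hP _ _ _ rfl

theorem sgl {X : K} {x y : K} (he : (WK K).Equation x y) (hX : X = 4 * x + 1) :
    (4 * (2 * y + x)) ^ 2 = X * (X - 1) * (X - 17) := by
  rw [eqn] at he
  rw [hX]
  linear_combination 64 * he

theorem w4 (h2 : w (2 : K) = 1) : w (4 : K) = 1 ∧ w (16 : K) = 1 := by
  constructor
  · rw [show (4 : K) = 2 ^ 2 by norm_num, map_pow, h2, one_pow]
  · rw [show (16 : K) = 2 ^ 4 by norm_num, map_pow, h2, one_pow]

theorem lt_one_of_sq {a : WithZero (Multiplicative ℤ)} (h : a ^ 2 < 1) : a < 1 := by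
  by_contra h1
  push Not at h1
  exact absurd h (not_lt.2 (one_le_pow₀ h1))

theorem cond (h17 : w (17 : K) < 1) {x y : K} (he : (WK K).Equation x y) :
    (1 < w x ∨ w (y - (3 * x ^ 2 - 8 * x - 1)) = 1 ∨ w (2 * y + x) = 1) ↔ 1 ≤ w (4 * x + 1) := by
  have h2 := w2 w h17
  obtain ⟨h4, h16⟩ := w4 w h2
  set X : K := 4 * x + 1 with hX
  set Y : K := 4 * (2 * y + x) with hY
  have hYX : Y ^ 2 = X * (X - 1) * (X - 17) := sgl he hX
  have hwY : w Y = w (2 * y + x) := by rw [hY, map_mul, h4, one_mul]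
  have hwf : w (y - (3 * x ^ 2 - 8 * x - 1)) = w (2 * Y - 3 * X ^ 2 + 36 * X - 17) := by
    have : 2 * Y - 3 * X ^ 2 + 36 * X - 17 = 16 * (y - (3 * x ^ 2 - 8 * x - 1)) := by
      rw [hX, hY]; ring
    rw [this, map_mul, h16, one_mul]
  have hn : ∀ n : ℕ, w ((n : ℕ) : K) ≤ 1 := wnat w
  rw [hwf, ← hwY]
  constructor
  · intro h
    by_contra hlt
    push Not at hlt
    have hx : w x = 1 := by
      have h5 : w (4 * x) = 1 := by
        have : 4 * x = X - 1 := by rw [hX]; ring
        rw [this, w.map_sub_eq_of_lt_right (by rw [w.map_one]; exact hlt), w.map_one]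
      rwa [map_mul, h4, one_mul] at h5
    have hX1 : w (X - 1) ≤ 1 := (w.map_sub _ _).trans (max_le hlt.le w.map_one.le)
    have hX17 : w (X - 17) ≤ 1 := (w.map_sub _ _).trans (max_le hlt.le h17.le)
    have hYlt : w Y < 1 := by
      refine lt_one_of_sq ?_
      rw [← map_pow, hYX, map_mul, map_mul]
      calc w X * w (X - 1) * w (X - 17) ≤ w X * 1 * 1 := by gcongr
        _ < 1 := by rw [mul_one, mul_one]; exact hlt
    rcases h with h | h | h
    · rw [hx] at h; exact lt_irrefl _ h
    · have h6 : w (2 * Y - 3 * X ^ 2 + 36 * X - 17) < 1 := by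
        refine (w.map_sub _ _).trans_lt (max_lt ?_ h17)
        refine (w.map_add _ _).trans_lt (max_lt ?_ ?_)
        · refine (w.map_sub _ _).trans_lt (max_lt ?_ ?_)
          · rw [map_mul, h2, one_mul]; exact hYlt
          · rw [map_mul, map_pow]
            calc w 3 * w X ^ 2 ≤ 1 * w X ^ 2 := by
                  gcongr
                  exact_mod_cast hn 3
              _ < 1 := by rw [one_mul]; exact pow_lt_one₀ zero_le hlt (by norm_num)
        · rw [map_mul]
          calc w 36 * w X ≤ 1 * w X := by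
                gcongr
                exact_mod_cast hn 36
            _ < 1 := by rw [one_mul]; exact hlt
      rw [h] at h6
      exact lt_irrefl _ h6
    · rw [h] at hYlt
      exact lt_irrefl _ hYlt
  · intro hge
    by_contra hcon
    push Not at hcon
    obtain ⟨c1, c2, c3⟩ := hcon
    have hXle : w X ≤ 1 := by
      rw [hX]
      refine (w.map_add _ _).trans (max_le ?_ w.map_one.le)
      rw [map_mul, h4, one_mul]
      exact c1
    have hX1 : w X = 1 := le_antisymm hXle hge
    have hXm : w (X - 1) ≤ 1 := (w.map_sub _ _).trans (max_le hXle w.map_one.le)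
    have hX17 : w (X - 17) = 1 := by
      rw [w.map_sub_eq_of_lt_left (by rw [hX1]; exact h17), hX1]
    have hYsq : w Y ^ 2 = w (X - 1) := by
      rw [← map_pow, hYX, map_mul, map_mul, hX1, hX17, one_mul, mul_one]
    have hYle : w Y ≤ 1 := by
      by_contra h5
      push Not at h5
      have : 1 < w Y ^ 2 := one_lt_pow₀ h5 (by norm_num)
      rw [hYsq] at this
      exact absurd this (not_lt.2 hXm)
    have hYlt : w Y < 1 := lt_of_le_of_ne hYle c3
    have hX1lt : w (X - 1) < 1 := by
      rw [← hYsq]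
      exact pow_lt_one₀ zero_le hYlt (by norm_num)
    apply c2
    have e : 2 * Y - 3 * X ^ 2 + 36 * X - 17 = (2 * Y - 3 * (X - 1) ^ 2 + 30 * (X - 1)) + 16 := by
      ring
    rw [e]
    have h6 : w (2 * Y - 3 * (X - 1) ^ 2 + 30 * (X - 1)) < 1 := by
      refine (w.map_add _ _).trans_lt (max_lt ?_ ?_)
      · refine (w.map_sub _ _).trans_lt (max_lt ?_ ?_)
        · rw [map_mul, h2, one_mul]; exact hYlt
        · rw [map_mul, map_pow]
          calc w 3 * w (X - 1) ^ 2 ≤ 1 * w (X - 1) ^ 2 := by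
                gcongr
                exact_mod_cast hn 3
            _ < 1 := by rw [one_mul]; exact pow_lt_one₀ zero_le hX1lt (by norm_num)
      · rw [map_mul]
        calc w 30 * w (X - 1) ≤ 1 * w (X - 1) := by
              gcongr
              exact_mod_cast hn 30
          _ < 1 := by rw [one_mul]; exact hX1lt
    rw [w.map_add_eq_of_lt_right (by rw [h16]; exact h6), h16]

theorem ns_eq (h17 : w (17 : K) < 1) : ns K w = NS w h17 := by
  have h : {P : (WK K).Point | ∀ x y h, P = Affine.Point.some x y h →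
    1 < w x ∨ w (E1.a₁ * y - (3 * x ^ 2 + 2 * E1.a₂ * x + E1.a₄)) = 1 ∨
      w (2 * y + E1.a₁ * x + E1.a₃) = 1} = (NS w h17 : Set (WK K).Point) := by
    ext P
    show (∀ x y h, P = Affine.Point.some x y h →
      1 < w x ∨ w (E1.a₁ * y - (3 * x ^ 2 + 2 * E1.a₂ * x + E1.a₄)) = 1 ∨
      w (2 * y + E1.a₁ * x + E1.a₃) = 1) ↔ NP w P
    unfold NP
    refine forall_congr' fun x => forall_congr' fun y => forall_congr' fun h =>
      imp_congr_right fun hP => ?_
    rw [← cond w h17 h.1]
    have e1 : (E1.a₁ : K) * y - (3 * x ^ 2 + 2 * E1.a₂ * x + E1.a₄) =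
        y - (3 * x ^ 2 - 8 * x - 1) := by
      simp only [E1]
      push_cast
      ring
    have e2 : 2 * y + (E1.a₁ : K) * x + E1.a₃ = 2 * y + x := by
      simp only [E1]
      push_cast
      ring
    rw [e1, e2]
  rw [ns]
  erw [h]
  exact AddSubgroup.closure_eq _

/-! ### points -/

theorem two_ne (h17 : w (17 : K) < 1) : (2 : K) ≠ 0 := by
  intro h
  have := w2 w h17
  rw [h, map_zero] at this
  exact zero_ne_one this

theorem ex_pt (h17 : w (17 : K) < 1) (h17' : (17 : K) ≠ 0) {X Y : K}
    (h : Y ^ 2 = X * (X - 1) * (X - 17)) :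
    ∃ x y, ∃ _ : (WK K).Nonsingular x y, 4 * x + 1 = X ∧ 4 * (2 * y + x) = Y := by
  have h2 := two_ne w h17
  have h4 : (4 : K) ≠ 0 := by
    rw [show (4 : K) = 2 ^ 2 by norm_num]; exact pow_ne_zero _ h2
  have h8 : (8 : K) ≠ 0 := by
    rw [show (8 : K) = 2 ^ 3 by norm_num]; exact pow_ne_zero _ h2
  have hE : (WK K).Equation ((X - 1) / 4) ((Y - X + 1) / 8) := by
    rw [eqn]
    field_simp
    linear_combination 64 * h
  refine ⟨(X - 1) / 4, (Y - X + 1) / 8, ?_, ?_, ?_⟩
  · rw [← Affine.equation_iff_nonsingular_of_Δ_ne_zero]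
    · exact hE
    · rw [disc, show (289 : K) = 17 ^ 2 by norm_num]
      exact pow_ne_zero _ h17'
  · field_simp
    ring
  · field_simp
    ring

/-- the point `T` of order two -/
theorem ex_T (h17 : w (17 : K) < 1) (h17' : (17 : K) ≠ 0) :
    ∃ T : (WK K).Point, T + T = 0 ∧ ¬ NP w T ∧
      (∀ x y h, 4 * x + 1 = 0 → (Affine.Point.some x y h : (WK K).Point) + T = 0) ∧
      ∀ x y h, 4 * x + 1 ≠ 0 → ∃ x' y', ∃ h' : (WK K).Nonsingular x' y',
        (Affine.Point.some x y h : (WK K).Point) + T = Affine.Point.some x' y' h' ∧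
        (4 * x + 1) * (4 * x' + 1) = 17 := by
  have h2 := two_ne w h17
  have h4 : (4 : K) ≠ 0 := by
    rw [show (4 : K) = 2 ^ 2 by norm_num]; exact pow_ne_zero _ h2
  obtain ⟨xT, yT, hT, hX, hY⟩ := ex_pt w h17 h17' (X := 0) (Y := 0) (by ring)
  have hy : 2 * yT + xT = 0 := (mul_eq_zero.1 hY).resolve_left h4
  have hneg : (WK K).negY xT yT = yT := by
    rw [Affine.negY, a1, a3]
    linear_combination (-1 : K) * hy
  have hself : ∀ (x y : K) (h : (WK K).Nonsingular x y), 4 * x + 1 = 0 →
      (Affine.Point.some x y h : (WK K).Point) + Affine.Point.some xT yT hT = 0 := by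
    intro x y h hx
    have e1 : x = xT := mul_left_cancel₀ h4 (by linear_combination hx - hX)
    refine Affine.Point.add_of_Y_eq e1 ?_
    rw [hneg]
    have e2 := sgl h.1 rfl
    rw [hx] at e2
    have e3 : (4 * (2 * y + x)) ^ 2 = 0 := by rw [e2]; ring
    have e4 : 2 * y + x = 0 := (mul_eq_zero.1 (pow_eq_zero_iff (two_ne_zero)|>.1 e3)).resolve_left h4
    exact mul_left_cancel₀ h2 (by rw [e1] at e4; linear_combination e4 - hy)
  refine ⟨Affine.Point.some xT yT hT, hself _ _ _ hX, ?_, hself, ?_⟩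
  · intro h
    have := h _ _ _ rfl
    rw [hX, map_zero] at this
    exact absurd this (not_le.2 zero_lt_one)
  · intro x y h hx
    have hxy : ¬(x = xT ∧ y = (WK K).negY xT yT) := fun h' => hx (by rw [h'.1]; exact hX)
    obtain ⟨l, μ, e1, e2, e3⟩ := line h.1 hT.1 hxy rfl
    refine ⟨_, _, _, Affine.Point.add_some hxy, ?_⟩
    rw [hX] at e2 e3
    have hμ : μ = 0 := by
      have : μ ^ 2 = 0 := by rw [← e3]; ring
      exact pow_eq_zero_iff (two_ne_zero) |>.1 this
    rw [hμ] at e2
    linear_combination e2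

theorem not_np {P : (WK K).Point} (h : ¬ NP w P) :
    ∃ x y, ∃ h : (WK K).Nonsingular x y, P = Affine.Point.some x y h ∧ w (4 * x + 1) < 1 := by
  unfold NP at h
  push Not at h
  exact h

theorem np_zero : NP w (0 : (WK K).Point) :=
  fun x y h h' => absurd h'.symm (Affine.Point.some_ne_zero h)

end grp

theorem t_TAM2 : S_TAM2 := by
  intro K _ w h
  have h17 : w (17 : K) < 1 := by
    rw [h, ← exp_zero, exp_lt_exp]; norm_num
  have h17' : (17 : K) ≠ 0 := by
    intro h0
    rw [h0, map_zero] at h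
    exact exp_ne_zero h.symm
  rw [ns_eq w h17, AddSubgroup.index_eq_two_iff]
  obtain ⟨T, hTT, hT, hT0, hT1⟩ := ex_T w h17 h17'
  refine ⟨T, fun b => ?_⟩
  by_cases hb : NP w b
  · refine Or.inr ⟨hb, fun h' => hT ?_⟩
    have := (NS w h17).sub_mem h' hb
    rwa [add_sub_cancel_left] at this
  · refine Or.inl ⟨?_, hb⟩
    obtain ⟨x, y, hxy, rfl, hlt⟩ := not_np w hb
    by_cases hx : 4 * x + 1 = 0
    · rw [hT0 x y hxy hx]; exact np_zero w
    · obtain ⟨x', y', h', he, hp⟩ := hT1 x y hxy hx
      rw [he]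
      intro x'' y'' h'' heq
      rw [Affine.Point.some.injEq] at heq
      rw [← heq.1]
      have h3 : w (4 * x + 1) * w (4 * x' + 1) = exp (-1 : ℤ) := by rw [← map_mul, hp, h]
      by_contra h4
      push Not at h4
      have h5 : w (4 * x + 1) ≠ 0 := (Valuation.ne_zero_iff _).2 hx
      have h6 : w (4 * x' + 1) ≠ 0 := by
        intro h0
        rw [h0, mul_zero] at h3
        exact exp_ne_zero h3.symm
      rw [← exp_log h5, ← exp_log h6, ← exp_add] at h3
      rw [← exp_log h5, ← exp_zero, exp_lt_exp] at hlt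
      rw [← exp_log h6, ← exp_zero, exp_lt_exp] at h4
      have := exp_injective h3
      omega

/-- index two from a coset of order two -/
theorem idx2 {G : Type} [AddCommGroup G] (H : AddSubgroup G) (a : G) (ha : a ∉ H)
    (h : ∀ b, b ∉ H → b + a ∈ H) : H.index = 2 := by
  rw [AddSubgroup.index_eq_two_iff]
  refine ⟨a, fun b => ?_⟩
  by_cases hb : b ∈ H
  · refine Or.inr ⟨hb, fun h' => ha ?_⟩
    have := H.sub_mem h' hb
    rwa [add_sub_cancel_left] at this
  · exact Or.inl ⟨h b hb, hb⟩

theorem t_TAM4 : S_TAM4 := by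
  intro K _ w h hsq ⟨π, hπ⟩
  have h17 : w (17 : K) < 1 := by
    rw [h, ← exp_zero, exp_lt_exp]; norm_num
  have h17' : (17 : K) ≠ 0 := by
    intro h0
    rw [h0, map_zero] at h
    exact exp_ne_zero h.symm
  have hπ0 : π ≠ 0 := by
    intro h0
    rw [h0, map_zero] at hπ
    exact exp_ne_zero hπ.symm
  have hπ1 : w π < 1 := by
    rw [hπ, ← exp_zero, exp_lt_exp]; norm_num
  have h2 := w2 w h17
  obtain ⟨h4, h16⟩ := w4 w h2
  have h20 := two_ne w h17
  have h160 : (16 : K) ≠ 0 := by
    rw [show (16 : K) = 2 ^ 4 by norm_num]; exact pow_ne_zero _ h20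
  rw [ns_eq w h17]
  obtain ⟨T, hTT, hT, hT0, hT1⟩ := ex_T w h17 h17'
  -- the point `R`
  obtain ⟨xR, yR, hR, hRX, -⟩ : ∃ x y, ∃ _ : (WK K).Nonsingular x y, 4 * x + 1 = π ∧ True := by
    obtain ⟨s1, hs1⟩ := hsq (1 - 17 / 16) (by
      rw [sub_sub_cancel_left, Valuation.map_neg, map_div₀, h16, div_one]; exact h17)
    obtain ⟨s2, hs2⟩ := hsq (1 - π) (by
      rw [sub_sub_cancel_left, Valuation.map_neg]; exact hπ1)
    obtain ⟨s3, hs3⟩ := hsq (1 - 17 / π) (by
      rw [sub_sub_cancel_left, Valuation.map_neg, map_div₀, hπ, h, ← exp_sub, ← exp_zero,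
        exp_lt_exp]
      norm_num)
    obtain ⟨x, y, h', e1, -⟩ := ex_pt w h17 h17' (X := π) (Y := π * 4 * s1 * s2 * s3) (by
      have e1 : s1 ^ 2 = 1 - 17 / 16 := by rw [sq]; exact hs1.symm
      have e2 : s2 ^ 2 = 1 - π := by rw [sq]; exact hs2.symm
      have e3 : s3 ^ 2 = 1 - 17 / π := by rw [sq]; exact hs3.symm
      have : (π * 4 * s1 * s2 * s3) ^ 2 = π ^ 2 * 16 * s1 ^ 2 * s2 ^ 2 * s3 ^ 2 := by ring
      rw [this, e1, e2, e3]
      field_simp
      ring)
    exact ⟨x, y, h', e1, trivial⟩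
  set R : (WK K).Point := Affine.Point.some xR yR hR with hRd
  -- the subgroup `M`
  let M : AddSubgroup (WK K).Point :=
    { carrier := {P | NP w P ∨ NP w (P + T)}
      add_mem' := by
        intro P Q hP hQ
        rcases hP with hP | hP <;> rcases hQ with hQ | hQ
        · exact Or.inl (np_add w h17 hP hQ)
        · refine Or.inr ?_
          rw [add_assoc]
          exact np_add w h17 hP hQ
        · refine Or.inr ?_
          rw [add_right_comm]
          exact np_add w h17 hP hQ
        · refine Or.inl ?_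
          have : P + Q = (P + T) + (Q + T) := by
            rw [add_add_add_comm, hTT, add_zero]
          rw [this]
          exact np_add w h17 hP hQ
      zero_mem' := Or.inl (np_zero w)
      neg_mem' := by
        intro P hP
        rcases hP with hP | hP
        · exact Or.inl ((NS w h17).neg_mem hP)
        · refine Or.inr ?_
          have : -P + T = -(P + T) := by
            rw [neg_add, neg_eq_of_add_eq_zero_left hTT]
          rw [this]
          exact (NS w h17).neg_mem hP }
  have hNM : NS w h17 ≤ M := fun P hP => Or.inl hP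
  have hTM : T ∈ M := Or.inr (by rw [hTT]; exact np_zero w)
  rw [← AddSubgroup.relIndex_mul_index hNM]
  have i1 : (NS w h17).relIndex M = 2 := by
    refine idx2 _ ⟨T, hTM⟩ hT fun b hb => ?_
    rcases b.2 with h' | h'
    · exact absurd h' hb
    · exact h'
  have i2 : M.index = 2 := by
    refine idx2 M R ?_ fun b hb => ?_
    · rintro (h' | h')
      · have := h' _ _ _ rfl
        rw [hRX] at this
        exact absurd this (not_le.2 hπ1)
      · obtain ⟨x', y', h'', he, hp⟩ := hT1 xR yR hR (by rw [hRX]; exact hπ0)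
        have := h' _ _ _ he
        have h3 : w (4 * xR + 1) * w (4 * x' + 1) = exp (-2 : ℤ) := by rw [← map_mul, hp, h]
        rw [hRX, hπ] at h3
        have h4 : exp (-1 : ℤ) * 1 ≤ exp (-1 : ℤ) * w (4 * x' + 1) := by gcongr
        rw [h3, mul_one, exp_le_exp] at h4
        norm_num at h4
    · have hb1 : ¬ NP w b := fun h' => hb (Or.inl h')
      have hb2 : ¬ NP w (b + T) := fun h' => hb (Or.inr h')
      obtain ⟨x, y, hxy, rfl, hlt⟩ := not_np w hb1
      have hx : 4 * x + 1 ≠ 0 := by
        intro h0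
        rw [hT0 x y hxy h0] at hb2
        exact hb2 (np_zero w)
      obtain ⟨x', y', h', he, hp⟩ := hT1 x y hxy hx
      rw [he] at hb2
      have hlt' : w (4 * x' + 1) < 1 := by
        obtain ⟨x'', y'', h'', he'', hl⟩ := not_np w hb2
        rw [Affine.Point.some.injEq] at he''
        rwa [he''.1]
      have h3 : w (4 * x + 1) * w (4 * x' + 1) = exp (-2 : ℤ) := by rw [← map_mul, hp, h]
      have h5 : w (4 * x + 1) ≠ 0 := (Valuation.ne_zero_iff _).2 hx
      have h6 : w (4 * x' + 1) ≠ 0 := by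
        intro h0
        rw [h0, mul_zero] at h3
        exact exp_ne_zero h3.symm
      have h7 : log (w (4 * x + 1)) = -1 := by
        rw [← exp_log h5, ← exp_log h6, ← exp_add] at h3
        rw [← exp_log h5, ← exp_zero, exp_lt_exp] at hlt
        rw [← exp_log h6, ← exp_zero, exp_lt_exp] at hlt'
        have := exp_injective h3
        omega
      have h8 : w (4 * x + 1) = exp (-1 : ℤ) := by rw [← h7, exp_log h5]
      -- the sum
      show NP w (Affine.Point.some x y hxy + R) ∨ NP w (Affine.Point.some x y hxy + R + T)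
      by_cases hc : x = xR ∧ y = (WK K).negY xR yR
      · left
        rw [hRd, Affine.Point.add_of_Y_eq hc.1 hc.2]
        exact np_zero w
      · obtain ⟨l, μ, -, -, e3⟩ := line hxy.1 hR.1 hc rfl
        rw [hRd, Affine.Point.add_some hc]
        set x₃ := (WK K).addX x xR ((WK K).slope x xR y yR) with hx3
        rw [hRX] at e3
        have e4 : exp (-1 : ℤ) * exp (-1 : ℤ) * w (4 * x₃ + 1) = w μ ^ 2 := by
          rw [← map_pow, ← e3, map_mul, map_mul, h8, hπ]
        by_cases hn : 1 ≤ w (4 * x₃ + 1)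
        · left
          intro x'' y'' h'' heq
          rw [Affine.Point.some.injEq] at heq
          rw [← heq.1]
          exact hn
        · right
          push Not at hn
          by_cases h0 : 4 * x₃ + 1 = 0
          · rw [hT0 _ _ _ h0]; exact np_zero w
          · obtain ⟨x₄, y₄, h₄, he4, hp4⟩ := hT1 _ _ (Affine.nonsingular_add hxy hR hc) h0
            rw [he4]
            intro x'' y'' h'' heq
            rw [Affine.Point.some.injEq] at heq
            rw [← heq.1]
            by_contra hcon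
            push Not at hcon
            have k1 : w (4 * x₃ + 1) * w (4 * x₄ + 1) = exp (-2 : ℤ) := by rw [← map_mul, hp4, h]
            have k2 : w (4 * x₃ + 1) ≠ 0 := (Valuation.ne_zero_iff _).2 h0
            have k3 : w (4 * x₄ + 1) ≠ 0 := by
              intro h0
              rw [h0, mul_zero] at k1
              exact exp_ne_zero k1.symm
            have k4 : w μ ≠ 0 := by
              intro h0
              rw [h0, zero_pow (by norm_num)] at e4
              rcases mul_eq_zero.1 e4 with h' | h'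
              · rcases mul_eq_zero.1 h' with h' | h' <;> exact exp_ne_zero h'
              · exact k2 h'
            rw [← exp_log k2, ← exp_log k4, ← exp_nsmul, ← exp_add, ← exp_add] at e4
            rw [← exp_log k2, ← exp_log k3, ← exp_add] at k1
            rw [← exp_log k2, ← exp_zero, exp_lt_exp] at hn
            rw [← exp_log k3, ← exp_zero, exp_lt_exp] at hcon
            have m1 := exp_injective e4
            have m2 := exp_injective k1
            rw [nsmul_eq_mul] at m1
            push_cast at m1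
            omega
  rw [i1, i2]

end Pool.Agent.H323.QF
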