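import Mathlib
import Pool.Agent.H193.RF.Stm

/-!
# Second differences determine the quadratic part (`S_D1`)
-/

set_option autoImplicit false
set_option linter.unusedSectionVars false

namespace Pool.Agent.H323.RF

open Pool.Agent.H197R3 (XX Quad gg pb vv sg tw2 sg0 sg1 tw0 sg_add sg_sq z2 iC iC_coe)
open Pool.Agent.H258.CR
open Pool.Agent.H193.RF

lemma sg_inj {x y : ZMod 2} (h : sg x = sg y) : x = y := by
  have h1 : iC * iC ≠ 1 := by
    intro h
    have := congrArg (fun c : Circle => (c : ℂ)) h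
    simp only [Circle.coe_mul, iC_coe, Circle.coe_one, Complex.I_mul_I] at this
    have h2 := congrArg Complex.re this
    norm_num at h2
  rcases z2 x with rfl | rfl <;> rcases z2 y with rfl | rfl
  · rfl
  · rw [sg0, sg1] at h; exact absurd h.symm h1
  · rw [sg0, sg1] at h; exact absurd h h1
  · rfl

lemma sg_inv (x : ZMod 2) : (sg x)⁻¹ = sg x := by
  rw [inv_eq_iff_mul_eq_one]; exact sg_sq _

/-- at the points `(0, Q)` an element of `Mp p` is the sign of a finite sum of values of `Q` -/
lemma Mp_list {A : Type} [AddCommGroup A] (p : A →+ A) {w : XX A → Circle} (hw : w ∈ Mp p) :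
    ∃ l : List A, ∀ Q : Quad A, w (0, Q) = sg ((l.map Q.1).sum) := by
  induction hw using Subgroup.closure_induction with
  | mem z hz =>
    rcases hz with ⟨a, rfl⟩ | ⟨a, rfl⟩
    · refine ⟨[], fun Q => ?_⟩
      simp [gg]
    · refine ⟨[a], fun Q => ?_⟩
      simp [up, tw0]
  | one => exact ⟨[], fun Q => by simp [sg0]⟩
  | mul x y _ _ hx hy =>
    obtain ⟨l, hl⟩ := hx
    obtain ⟨l', hl'⟩ := hy
    refine ⟨l ++ l', fun Q => ?_⟩
    rw [Pi.mul_apply, hl, hl', List.map_append, List.sum_append, sg_add]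
  | inv x _ hx =>
    obtain ⟨l, hl⟩ := hx
    refine ⟨l, fun Q => ?_⟩
    rw [Pi.inv_apply, hl, sg_inv]

/-- sum of the values over a list, as an additive map -/
def LS {A : Type} (l : List A) : (A → ZMod 2) →+ ZMod 2 where
  toFun F := (l.map F).sum
  map_zero' := by
    induction l with
    | nil => rfl
    | cons a l ih => rw [List.map_cons, List.sum_cons, ih]; rfl
  map_add' F G := by
    induction l with
    | nil => rfl
    | cons a l ih =>
      simp only [List.map_cons, List.sum_cons, ih, Pi.add_apply]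
      ring

lemma LS_apply {A : Type} (l : List A) (F : A → ZMod 2) : LS l F = (l.map F).sum := rfl

lemma LS_mul {A : Type} (l : List A) (c : ZMod 2) (F : A → ZMod 2) :
    LS l (fun a => c * F a) = c * LS l F := by
  rw [LS_apply, LS_apply]
  induction l with
  | nil => simp
  | cons a l ih => simp only [List.map_cons, List.sum_cons, ih]; ring

lemma LS_congr {A : Type} (l : List A) (F G : A → ZMod 2) (h : ∀ a ∈ l, F a = G a) :
    LS l F = LS l G := by
  rw [LS_apply, LS_apply]
  congr 1
  exact List.map_congr_left h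

section ring
variable {R : Type} [CommRing R] [IsDomain R]

/-- every additive function on `R` is of the form `x ↦ f (r x)`, `r ≠ 0` -/
lemma exists_mulfun (h2 : ∀ r : R, r + r = 0) (r : R) (hr : r ≠ 0) (f : R →+ ZMod 2) :
    ∃ f' : R →+ ZMod 2, ∀ x, f' (r * x) = f x := by
  let _ : Module (ZMod 2) R := AddCommGroup.zmodModule (fun r => by rw [two_nsmul]; exact h2 r)
  let m : R →ₗ[ZMod 2] R := (AddMonoidHom.mulLeft r).toZModLinearMap 2
  have hm : ∀ x, m x = r * x := fun x => rfl
  have hinj : LinearMap.ker m = ⊥ := by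
    rw [LinearMap.ker_eq_bot]
    intro x y hxy
    rw [hm, hm] at hxy
    exact mul_left_cancel₀ hr hxy
  obtain ⟨g, hg⟩ := m.exists_leftInverse_of_injective hinj
  refine ⟨f.comp g.toAddMonoidHom, fun x => ?_⟩
  show f (g (r * x)) = f x
  rw [← hm]
  congr 1
  exact LinearMap.congr_fun hg x

/-- the basic computation -/
lemma basic (h2 : ∀ r : R, r + r = 0) (l : List (V3 R)) {w : XX (V3 R) → Circle}
    (hl : ∀ Q : Quad (V3 R), w (0, Q) = sg ((l.map Q.1).sum))
    {i j k m : Fin 3} (hij : i ≠ j) (hkm : k ≠ m) (hjk : j ≠ k) (hik : i ≠ k) {r s : R}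
    (hr : r ≠ 0) (hs : s ≠ 0) (hSD : SD (ee hij r) (ee hkm s) w) (f g : R →+ ZMod 2) :
    LS l (fun a => f (a j) * g (a m)) = 0 := by
  obtain ⟨f', hf'⟩ := exists_mulfun h2 r hr f
  obtain ⟨g', hg'⟩ := exists_mulfun h2 s hs g
  let lam : V3 R →+ ZMod 2 := f'.comp (Pi.evalAddMonoidHom (fun _ : Fin 3 => R) i)
  let mu : V3 R →+ ZMod 2 := g'.comp (Pi.evalAddMonoidHom (fun _ : Fin 3 => R) k)
  have hlam : ∀ a : V3 R, lam a = f' (a i) := fun a => rfl
  have hmu : ∀ a : V3 R, mu a = g' (a k) := fun a => rfl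
  have key := hSD (vv lam mu)
  have e0 : ∀ (u : Lam R) (Q : Quad (V3 R)), w (pb u (0, Q)) =
      sg (LS l (fun a => Q.1 (u • a))) := fun u Q => hl _
  rw [e0, e0, e0, hl, ← sg_add, ← sg_add] at key
  have key2 := sg_inj key
  have ek : ∀ a : V3 R, (Pi.single k (s * a m) : V3 R) i = 0 := fun a =>
    Pi.single_eq_of_ne hik _
  have ek' : ∀ a : V3 R, (Pi.single k (s * a m) : V3 R) k = s * a m := fun a =>
    Pi.single_eq_same _ _
  have ekj : ∀ a : V3 R, (Pi.single k (s * a m) : V3 R) j = 0 := fun a =>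
    Pi.single_eq_of_ne hjk _
  have ei : ∀ c : R, (Pi.single i c : V3 R) k = 0 := fun c =>
    Pi.single_eq_of_ne (Ne.symm hik) _
  have ei' : ∀ c : R, (Pi.single i c : V3 R) i = c := fun c =>
    Pi.single_eq_same _ _
  have h12 : (fun a => (vv lam mu).1 ((ee hij r * ee hkm s) • a)) =
      fun a : V3 R => (f' (a i) + f (a j)) * (g' (a k) + g (a m)) := by
    funext a
    show lam ((ee hij r * ee hkm s) • a) * mu ((ee hij r * ee hkm s) • a) = _
    rw [mul_smul, ee_smul, ee_smul, hlam, hmu]
    simp only [Pi.add_apply, ek, ek', ekj, ei, ei', add_zero, map_add, hf', hg']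
  have h1 : (fun a => (vv lam mu).1 (ee hij r • a)) =
      fun a : V3 R => (f' (a i) + f (a j)) * g' (a k) := by
    funext a
    show lam (ee hij r • a) * mu (ee hij r • a) = _
    rw [ee_smul, hlam, hmu]
    simp only [Pi.add_apply, ei, ei', add_zero, map_add, hf']
  have h2' : (fun a => (vv lam mu).1 (ee hkm s • a)) =
      fun a : V3 R => f' (a i) * (g' (a k) + g (a m)) := by
    funext a
    show lam (ee hkm s • a) * mu (ee hkm s • a) = _
    rw [ee_smul, hlam, hmu]
    simp only [Pi.add_apply, ek, ek', add_zero, map_add, hg']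
  have h0 : (vv lam mu).1 = fun a : V3 R => f' (a i) * g' (a k) := rfl
  rw [h12, h1, h2', h0, ← LS_apply, ← map_add, ← map_add] at key2
  have hz : LS l (fun a : V3 R => f (a j) * g (a m)) =
      LS l ((fun a : V3 R => (f' (a i) + f (a j)) * (g' (a k) + g (a m))) +
        fun a : V3 R => f' (a i) * g' (a k)) -
      LS l ((fun a : V3 R => (f' (a i) + f (a j)) * g' (a k)) +
        fun a : V3 R => f' (a i) * (g' (a k) + g (a m))) := by
    rw [← map_sub]
    congr 1
    funext a
    simp only [Pi.sub_apply, Pi.add_apply]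
    ring
  rw [hz, key2, sub_self]

theorem s_D1' (h2 : ∀ r : R, r + r = 0) (p : V3 R →+ V3 R) (w : XX (V3 R) → Circle)
    (hw : w ∈ Mp p)
    (hSD : ∀ (i j k l : Fin 3) (hij : i ≠ j) (hkl : k ≠ l), j ≠ k → i ≠ k →
      ∃ r s : R, r ≠ 0 ∧ s ≠ 0 ∧ SD (ee hij r) (ee hkl s) w) (Q : Quad (V3 R)) :
    w (0, Q) = 1 := by
  obtain ⟨l, hl⟩ := Mp_list p hw
  have hidx : ∀ j m : Fin 3, ∃ i k : Fin 3, i ≠ j ∧ k ≠ m ∧ j ≠ k ∧ i ≠ k := by decide
  have star : ∀ (j m : Fin 3) (f g : R →+ ZMod 2), LS l (fun a => f (a j) * g (a m)) = 0 := by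
    intro j m f g
    obtain ⟨i, k, hij, hkm, hjk, hik⟩ := hidx j m
    obtain ⟨r, s, hr, hs, h⟩ := hSD i j k m hij hkm hjk hik
    exact basic h2 l hl hij hkm hjk hik hr hs h f g
  -- products of two linear forms
  have bet : ∀ lam mu : V3 R →+ ZMod 2, LS l (fun a => lam a * mu a) = 0 := by
    intro lam mu
    have hdec : ∀ (lam : V3 R →+ ZMod 2) (a : V3 R), lam a =
        ∑ c : Fin 3, (lam.comp (AddMonoidHom.single (fun _ : Fin 3 => R) c)) (a c) := by
      intro lam a
      have : a = ∑ c : Fin 3, Pi.single c (a c) := (Finset.univ_sum_single a).symm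
      conv_lhs => rw [this]
      rw [map_sum]
      rfl
    have e : (fun a => lam a * mu a) = ∑ c : Fin 3, ∑ d : Fin 3,
        fun a : V3 R => (lam.comp (AddMonoidHom.single (fun _ : Fin 3 => R) c)) (a c) *
          (mu.comp (AddMonoidHom.single (fun _ : Fin 3 => R) d)) (a d) := by
      funext a
      rw [hdec lam a, hdec mu a, Finset.sum_mul_sum, Finset.sum_apply]
      refine Finset.sum_congr rfl fun c _ => ?_
      rw [Finset.sum_apply]
    rw [e, map_sum]
    refine Finset.sum_eq_zero fun c _ => ?_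
    rw [map_sum]
    exact Finset.sum_eq_zero fun d _ => star c d _ _
  have h2' : ∀ a : V3 R, 2 • a = 0 := by
    intro a
    rw [two_nsmul]
    funext c
    exact h2 (a c)
  obtain ⟨β, hb1, hb2, hQ⟩ := Pool.Agent.Y276.Rig.exists_biadd h2' Q
  let _ : Module (ZMod 2) (V3 R) := AddCommGroup.zmodModule h2'
  classical
  let b := Module.Basis.ofVectorSpace (ZMod 2) (V3 R)
  let T : Finset (Module.Basis.ofVectorSpaceIndex (ZMod 2) (V3 R)) :=
    l.toFinset.biUnion (fun a => (b.repr a).support)
  have hT : ∀ a ∈ l, a = ∑ i ∈ T, (b.repr a i) • b i := by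
    intro a ha
    conv_lhs => rw [← b.linearCombination_repr a]
    rw [Finsupp.linearCombination_apply]
    apply Finsupp.sum_of_support_subset
    · exact Finset.subset_biUnion_of_mem (fun a => (b.repr a).support) (List.mem_toFinset.2 ha)
    · intro i _
      exact zero_smul _ _
  let B1 : V3 R → (V3 R →+ ZMod 2) := fun c =>
    { toFun := fun a => β a c
      map_zero' := by
        have := hb1 0 0 c
        rw [add_zero] at this
        exact left_eq_add.1 this
      map_add' := fun a a' => hb1 a a' c }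
  let B2 : V3 R → (V3 R →+ ZMod 2) := fun a =>
    { toFun := fun c => β a c
      map_zero' := by
        have := hb2 a 0 0
        rw [add_zero] at this
        exact left_eq_add.1 this
      map_add' := fun c c' => hb2 a c c' }
  have hB : ∀ a ∈ l, β a a = (∑ i ∈ T, ∑ j ∈ T, fun a : V3 R =>
      β (b i) (b j) * ((b.repr a i) * (b.repr a j))) a := by
    intro a ha
    have e1 : β a a = B1 a (∑ i ∈ T, (b.repr a i) • b i) := by
      rw [← hT a ha]; rfl
    rw [e1, map_sum, Finset.sum_apply]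
    refine Finset.sum_congr rfl fun i _ => ?_
    rw [ZMod.map_smul]
    have e2 : B1 a (b i) = B2 (b i) (∑ j ∈ T, (b.repr a j) • b j) := by
      rw [← hT a ha]; rfl
    rw [e2, map_sum, Finset.sum_apply, Finset.smul_sum]
    refine Finset.sum_congr rfl fun j _ => ?_
    rw [ZMod.map_smul]
    show (b.repr a i) * ((b.repr a j) * β (b i) (b j)) = _
    ring
  have hfin : LS l Q.1 = 0 := by
    rw [LS_congr l Q.1 _ (fun a ha => (hQ a).trans (hB a ha)), map_sum]
    refine Finset.sum_eq_zero fun i _ => ?_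
    rw [map_sum]
    refine Finset.sum_eq_zero fun j _ => ?_
    rw [LS_mul]
    have := bet ((b.coord i).toAddMonoidHom) ((b.coord j).toAddMonoidHom)
    have h3 : LS l (fun a => b.repr a i * b.repr a j) = 0 := this
    rw [h3, mul_zero]
  rw [hl, ← LS_apply, hfin, sg0]

end ring

theorem s_D1 : Pool.Agent.H193.RF.S_D1 := by
  intro R _ _ h2 p w hw hSD Q
  exact s_D1' h2 p w hw hSD Q

end Pool.Agent.H323.RF
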