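import Mathlib
import Pool.Agent.H193.RF.Stm

/-!
# The chain lemma for invariant subgroups of `R³` (`S_G`)
-/

set_option autoImplicit false
set_option linter.unusedSectionVars false

namespace Pool.Agent.H323.RF

open Pool.Agent.H258.CR
open Pool.Agent.H193.RF

lemma comap_fin {G G' : Type} [AddCommGroup G] [AddCommGroup G'] (f : G' →+ G)
    (H : AddSubgroup G) (h : H.FiniteIndex) : (H.comap f).FiniteIndex := by
  rw [AddSubgroup.finiteIndex_iff, AddSubgroup.index_comap]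
  have h1 : H.IsFiniteRelIndex f.range := AddSubgroup.isFiniteRelIndex_of_finiteIndex
  exact h1.relIndex_ne_zero

lemma exists_ne' (b : Fin 3) : ∃ c : Fin 3, c ≠ b := by revert b; decide

section chain
variable {R : Type} [CommRing R]

lemma fin_quot {I : Ideal R} (h : Finite (R ⧸ I)) : I.toAddSubgroup.FiniteIndex := by
  have : Finite (R ⧸ I.toAddSubgroup) := h
  exact AddSubgroup.finiteIndex_of_finite_quotient

lemma quot_fin {I : Ideal R} (h : I.toAddSubgroup.FiniteIndex) : Finite (R ⧸ I) := by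
  exact I.toAddSubgroup.finite_quotient_of_finiteIndex

lemma fin_of_ideal (I : Ideal R) (h : Finite (R ⧸ I)) (L : AddSubgroup R)
    (hle : ∀ x ∈ I, x ∈ L) : L.FiniteIndex := by
  have h1 := fin_quot h
  exact AddSubgroup.finiteIndex_of_le (H := I.toAddSubgroup) hle

/-- the elements `x` of an ideal `J` with `x R ⊆ L'` -/
def core (J : Ideal R) (L' : AddSubgroup R) : Ideal R where
  carrier := {x | x ∈ J ∧ ∀ y, x * y ∈ L'}
  zero_mem' := ⟨J.zero_mem, fun y => by rw [zero_mul]; exact L'.zero_mem⟩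
  add_mem' := fun {a b} ha hb => ⟨J.add_mem ha.1 hb.1, fun y => by
    rw [add_mul]; exact L'.add_mem (ha.2 y) (hb.2 y)⟩
  smul_mem' := fun c {x} hx => ⟨J.mul_mem_left c hx.1, fun y => by
    rw [smul_eq_mul, mul_comm c x, mul_assoc]; exact hx.2 (c * y)⟩

lemma core_fin (J : Ideal R) (hJ : Finite (R ⧸ J)) (L' : AddSubgroup R) (hL' : L'.FiniteIndex)
    (hmul : ∀ x ∈ J, ∀ y ∈ L', x * y ∈ L') : Finite (R ⧸ core J L') := by
  apply quot_fin
  have hf : Finite (R ⧸ L') := AddSubgroup.finite_quotient_of_finiteIndex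
  have h1 : (⨅ q : R ⧸ L', L'.comap (AddMonoidHom.mulRight q.out)).FiniteIndex :=
    AddSubgroup.finiteIndex_iInf fun q => comap_fin _ _ hL'
  have h2 : J.toAddSubgroup.FiniteIndex := fin_quot hJ
  have h3 : (J.toAddSubgroup ⊓ ⨅ q : R ⧸ L',
      L'.comap (AddMonoidHom.mulRight q.out)).FiniteIndex := inferInstance
  refine AddSubgroup.finiteIndex_of_le (H := J.toAddSubgroup ⊓ ⨅ q : R ⧸ L',
      L'.comap (AddMonoidHom.mulRight q.out)) ?_
  intro x hx
  rw [AddSubgroup.mem_inf, AddSubgroup.mem_iInf] at hx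
  refine ⟨hx.1, fun y => ?_⟩
  have h4 : x * ((y : R ⧸ L').out) ∈ L' := hx.2 (y : R ⧸ L')
  have h5 : -((y : R ⧸ L').out) + y ∈ L' := by
    rw [← QuotientAddGroup.eq, QuotientAddGroup.out_eq']
  have h6 := L'.add_mem h4 (hmul x hx.1 _ h5)
  have e : x * ((y : R ⧸ L').out) + x * (-((y : R ⧸ L').out) + y) = x * y := by ring
  rwa [e] at h6

/-- the subgroup of the `x` with all `Y^i x e_b` in `D` -/
def Lsub (D : AddSubgroup (V3 R)) (z : R) : AddSubgroup R where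
  carrier := {x | ∀ b : Fin 3, (Pi.single b (z * x) : V3 R) ∈ D}
  zero_mem' := fun b => by rw [mul_zero, Pi.single_zero]; exact D.zero_mem
  add_mem' := fun {x y} hx hy b => by
    rw [mul_add, Pi.single_add]; exact D.add_mem (hx b) (hy b)
  neg_mem' := fun {x} hx b => by
    rw [mul_neg, Pi.single_neg]; exact D.neg_mem (hx b)

/-- an element of `D` which is not divisible by `Y^(i+1)` -/
lemma chain1 (Y : R) (D : AddSubgroup (V3 R)) (i : ℕ)
    (hi : ∀ d ∈ D, ∃ c : V3 R, d = Y ^ i • c)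
    (hi1 : ¬ ∀ d ∈ D, ∃ c : V3 R, d = Y ^ (i + 1) • c) :
    ∃ (d : V3 R) (a : Fin 3) (g : R), d ∈ D ∧ d a = Y ^ i * g ∧ ¬ Y ∣ g := by
  by_contra hcon
  push Not at hcon
  apply hi1
  intro d hd
  obtain ⟨c, hc⟩ := hi d hd
  have : ∀ a, ∃ c', c a = Y * c' := fun a => hcon d a (c a) hd (by rw [hc]; rfl)
  choose c' hc' using this
  refine ⟨c', ?_⟩
  rw [hc]
  funext a
  show Y ^ i * c a = Y ^ (i + 1) * c' a
  rw [hc' a]; ring

/-- differences -/
lemma hdiff (J : Ideal R) (D : AddSubgroup (V3 R))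
    (hD : ∀ (a b : Fin 3) (h : a ≠ b) (r : R), r ∈ J → ∀ d ∈ D, (ee h r : Lam R) • d ∈ D) :
    ∀ (b a : Fin 3) (_ : b ≠ a) (r : R), r ∈ J → ∀ d ∈ D,
      (Pi.single b (r * d a) : V3 R) ∈ D := by
  intro b a h r hr d hd
  have h1 := D.sub_mem (hD b a h r hr d hd) hd
  rwa [ee_smul, add_sub_cancel_left] at h1

lemma hJL (J : Ideal R) (D : AddSubgroup (V3 R)) (z : R)
    (hdiff : ∀ (b a : Fin 3) (_ : b ≠ a) (r : R), r ∈ J → ∀ d ∈ D,
      (Pi.single b (r * d a) : V3 R) ∈ D) :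
    ∀ x ∈ J, ∀ y ∈ Lsub D z, x * y ∈ Lsub D z := by
  intro x hx y hy b
  obtain ⟨c, hc⟩ := exists_ne' b
  have h1 := hdiff b c hc.symm x hx _ (hy c)
  rw [Pi.single_eq_same] at h1
  have e : x * (z * y) = z * (x * y) := by ring
  rwa [e] at h1

lemma hg3 (J : Ideal R) (D : AddSubgroup (V3 R)) (z : R)
    (hdiff : ∀ (b a : Fin 3) (_ : b ≠ a) (r : R), r ∈ J → ∀ d ∈ D,
      (Pi.single b (r * d a) : V3 R) ∈ D)
    (d : V3 R) (a : Fin 3) (g : R) (hd : d ∈ D) (hda : d a = z * g) :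
    ∀ x ∈ J * J, x * g ∈ Lsub D z := by
  have hg1 : ∀ r ∈ J, ∀ b, b ≠ a → (Pi.single b (z * (r * g)) : V3 R) ∈ D := by
    intro r hr b hb
    have h1 := hdiff b a hb r hr d hd
    rw [hda] at h1
    have e : r * (z * g) = z * (r * g) := by ring
    rwa [e] at h1
  have hg2 : ∀ s ∈ J, ∀ r ∈ J, s * r * g ∈ Lsub D z := by
    intro s hs r hr b
    by_cases hb : b = a
    · obtain ⟨c, hc⟩ := exists_ne' a
      have h1 := hdiff b c (by rw [hb]; exact hc.symm) s hs _ (hg1 r hr c hc)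
      rw [Pi.single_eq_same] at h1
      have e : s * (z * (r * g)) = z * (s * r * g) := by ring
      rwa [e] at h1
    · exact hg1 (s * r) (J.mul_mem_left s hr) b hb
  intro x hx
  refine Submodule.mul_induction_on (C := fun x => x * g ∈ Lsub D z) hx hg2 ?_
  intro x y hx hy
  show (x + y) * g ∈ Lsub D z
  rw [add_mul]
  exact AddSubgroup.add_mem _ hx hy

/-- the second subgroup -/
lemma hL'fin (Y : R) (D B : AddSubgroup (V3 R)) (i t : ℕ) (hB : B.index ≠ 0)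
    (hm : ∀ b ∈ B, Y ^ (i + t) • b ∈ D) :
    ((Lsub D (Y ^ i)).comap (AddMonoidHom.mulLeft (Y ^ t))).FiniteIndex := by
  have hBf : B.FiniteIndex := ⟨hB⟩
  have h1 : (⨅ b : Fin 3, B.comap (AddMonoidHom.single (fun _ : Fin 3 => R) b)).FiniteIndex :=
    AddSubgroup.finiteIndex_iInf fun b => comap_fin _ _ hBf
  refine AddSubgroup.finiteIndex_of_le (H := ⨅ b : Fin 3,
    B.comap (AddMonoidHom.single (fun _ : Fin 3 => R) b)) ?_
  intro x hx
  rw [AddSubgroup.mem_iInf] at hx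
  intro b
  have h2 : (Pi.single b x : V3 R) ∈ B := hx b
  have h3 := hm _ h2
  have e : Y ^ (i + t) • (Pi.single b x : V3 R) = Pi.single b (Y ^ i * (Y ^ t * x)) := by
    rw [← Pi.single_smul, smul_eq_mul, pow_add, mul_assoc]
  rw [e] at h3
  exact h3

lemma hfin (D : AddSubgroup (V3 R)) (z : R) (hLfin : (Lsub D z).FiniteIndex) :
    ∃ B' : AddSubgroup (V3 R), B'.index ≠ 0 ∧ ∀ b ∈ B', z • b ∈ D := by
  have hB' : (⨅ b : Fin 3, (Lsub D z).comap
      (Pi.evalAddMonoidHom (fun _ : Fin 3 => R) b)).FiniteIndex :=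
    AddSubgroup.finiteIndex_iInf fun b => comap_fin _ _ hLfin
  refine ⟨_, hB'.index_ne_zero, ?_⟩
  intro b hb
  rw [AddSubgroup.mem_iInf] at hb
  have e : z • b = ∑ c : Fin 3, Pi.single c (z * b c) :=
    (Finset.univ_sum_single (z • b)).symm
  rw [e]
  exact AddSubgroup.sum_mem _ fun c _ => hb c c

lemma hIL (z Yt g : R) (D : AddSubgroup (V3 R)) (K : Ideal R)
    (h1 : ∀ u ∈ K, u * g ∈ Lsub D z) (h2 : ∀ u ∈ K, Yt * u ∈ Lsub D z) :
    ∀ x : R, x ∈ K * (Ideal.span {g} ⊔ Ideal.span {Yt}) → x ∈ Lsub D z := by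
  intro x hx
  have step : ∀ u ∈ K, ∀ v ∈ Ideal.span {g} ⊔ Ideal.span {Yt}, u * v ∈ Lsub D z := by
    intro u hu v hv
    obtain ⟨v1, hv1, v2, hv2, rfl⟩ := Submodule.mem_sup.1 hv
    obtain ⟨w1, rfl⟩ := Ideal.mem_span_singleton'.1 hv1
    obtain ⟨w2, rfl⟩ := Ideal.mem_span_singleton'.1 hv2
    rw [mul_add]
    refine AddSubgroup.add_mem _ ?_ ?_
    · have h3 := h1 (u * w1) (Ideal.mul_mem_right w1 _ hu)
      rwa [mul_assoc] at h3
    · have h3 := h2 (u * w2) (Ideal.mul_mem_right w2 _ hu)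
      have e : Yt * (u * w2) = u * (w2 * Yt) := by ring
      rwa [e] at h3
  exact Submodule.mul_induction_on (C := fun x => x ∈ Lsub D z) hx step
    (fun x y hx hy => AddSubgroup.add_mem _ hx hy)

lemma exK [IsNoetherianRing R] (J C : Ideal R) (hJ : Finite (R ⧸ J)) (hC : Finite (R ⧸ C)) :
    ∃ K : Ideal R, Finite (R ⧸ K) ∧ (∀ u ∈ K, u ∈ J * J) ∧ ∀ u ∈ K, u ∈ C := by
  have hJJ : Finite (R ⧸ (J * J)) := Submodule.finite_quotient_smul J (IsNoetherian.noetherian J)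
  have hK : Finite (R ⧸ ((J * J) * C)) :=
    Submodule.finite_quotient_smul (J * J) (IsNoetherian.noetherian C)
  have e1 : (J * J) * C ≤ J * J := Ideal.mul_le_left
  have e2 : (J * J) * C ≤ C := Ideal.mul_le_right
  exact ⟨(J * J) * C, hK, fun u hu => e1 hu, fun u hu => e2 hu⟩

theorem chain [IsNoetherianRing R] (Y : R)
    (h0 : ∀ K : Ideal R, Finite (R ⧸ K) → ∀ (g : R) (t : ℕ), ¬ Y ∣ g →
      Finite (R ⧸ (K * (Ideal.span {g} ⊔ Ideal.span {Y ^ t}))))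
    (J : Ideal R) (hJ : Finite (R ⧸ J)) (D B : AddSubgroup (V3 R)) (i m : ℕ) (him : i ≤ m)
    (hB : B.index ≠ 0)
    (hD : ∀ (a b : Fin 3) (h : a ≠ b) (r : R), r ∈ J → ∀ d ∈ D, (ee h r : Lam R) • d ∈ D)
    (hi : ∀ d ∈ D, ∃ c : V3 R, d = Y ^ i • c)
    (hi1 : ¬ ∀ d ∈ D, ∃ c : V3 R, d = Y ^ (i + 1) • c)
    (hm : ∀ b ∈ B, Y ^ m • b ∈ D) :
    ∃ B' : AddSubgroup (V3 R), B'.index ≠ 0 ∧ ∀ b ∈ B', Y ^ i • b ∈ D := by
  obtain ⟨d, a, g, hd, hda, hg⟩ := chain1 Y D i hi hi1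
  have hdf := hdiff J D hD
  have hJL' := hJL J D (Y ^ i) hdf
  have hg3' := hg3 J D (Y ^ i) hdf d a g hd hda
  obtain ⟨t, rfl⟩ : ∃ t, m = i + t := ⟨m - i, by omega⟩
  have hL' := hL'fin Y D B i t hB hm
  obtain ⟨L', hL'def⟩ : ∃ L' : AddSubgroup R,
    L' = (Lsub D (Y ^ i)).comap (AddMonoidHom.mulLeft (Y ^ t)) := ⟨_, rfl⟩
  rw [← hL'def] at hL'
  have hL'mem : ∀ x, x ∈ L' ↔ Y ^ t * x ∈ Lsub D (Y ^ i) := fun x => by rw [hL'def]; rfl
  have hJL'' : ∀ x ∈ J, ∀ y ∈ L', x * y ∈ L' := by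
    intro x hx y hy
    rw [hL'mem] at hy ⊢
    have h1 := hJL' x hx _ hy
    have e : x * (Y ^ t * y) = Y ^ t * (x * y) := by ring
    rwa [e] at h1
  have hcore := core_fin J hJ L' hL' hJL''
  obtain ⟨K, hKf, hK1, hK2⟩ := exK J (core J L') hJ hcore
  have hI := h0 K hKf g t hg
  have hLfin : (Lsub D (Y ^ i)).FiniteIndex := by
    refine fin_of_ideal _ hI _ (hIL (Y ^ i) (Y ^ t) g D K ?_ ?_)
    · intro u hu
      exact hg3' u (hK1 u hu)
    · intro u hu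
      have h2 : u ∈ core J L' := hK2 u hu
      have h3 := (hL'mem _).1 (h2.2 1)
      rwa [mul_one] at h3
  exact hfin D (Y ^ i) hLfin

end chain

theorem s_G (h0 : Pool.Agent.H193.RF.S_G0) : Pool.Agent.H193.RF.S_G := by
  intro k _ _ J hJ D B i m him hB hD hi hi1 hm
  exact chain _ (fun K hK g t hg => h0 k K hK g t hg) J hJ D B i m him hB hD hi hi1 hm

end Pool.Agent.H323.RF
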