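import Pool.Agent.H724.WE.SFStm

/-!
# Project WE (helper724), WE-5 (helper323): the number of non-parallel shifts
-/

namespace H323.WEBad

open H724.WE Finset
open scoped Classical

variable {V ι : Type} (G : SF V ι)

theorem sh_inj {d f : Dart ι} (h : sh d = sh f) : d = f := by
  rcases d with ⟨i, o, s⟩
  rcases f with ⟨j, p, t⟩
  simp only [sh, Prod.mk.injEq] at h
  obtain ⟨h1, h2, h3⟩ := h
  simp only [Prod.mk.injEq]
  exact ⟨h1, by omega, h3⟩

theorem heavy_rev {d f : Dart ι} (hd : G.val d) (hf : G.val f) (h1 : ¬ G.light (rev d))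
    (h2 : G.tl f = G.hd d) (h3 : f ≠ rev d) : ¬ G.light (rev f) := by
  have hne : ed (rev d) ≠ ed (rev f) := by
    rw [ed_rev, ed_rev]
    intro h
    rcases eq_or_eq_rev h with h | h
    · subst h
      exact G.tl_not_mem_far hd (by rw [h2]; exact G.hd_mem_far f)
    · exact h3 h
  have hh : G.tl (rev d) = G.hd (rev f) := by simp [h2]
  have hn := G.nest (d := rev f) (f := rev d) hf hd hne
    (by rw [hh]; exact G.hd_mem_far _)
    (by rw [← hh]; exact G.tl_not_mem_far (d := rev d) hd)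
  intro hl
  apply h1
  intro x hx
  exact hl x (hn.1 hx)

theorem par_of {d : Dart ι} [Fintype ι] [Fintype V] (hd : G.val d) (hsd : G.val (sh d))
    (h1 : d ∉ G.SC) (h2 : rev d ∉ G.SC) (h3 : G.hd d ∉ G.bdU) (h4 : G.hd (sh d) ∉ G.bdD)
    (h5 : ∀ f ∈ G.SC, G.tl f ≠ G.hd d) : G.Par d := by
  have hL : G.light d ↔ G.light (sh d) := by
    by_contra h
    exact h1 (by
      simp only [SF.SC, mem_filter, G.mem_darts]
      exact ⟨hd, hsd, h⟩)
  have hL' : G.light (rev d) ↔ G.light (rev (sh d)) := by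
    by_contra h
    exact h2 (by
      simp only [SF.SC, mem_filter, G.mem_darts]
      exact ⟨hd, hsd, h⟩)
  have hcore : G.core d ↔ G.core (sh d) := by
    unfold SF.core
    rw [hL, hL']
    constructor
    · rintro ⟨_, h⟩; exact ⟨hsd, h⟩
    · rintro ⟨_, h⟩; exact ⟨hd, h⟩
  by_cases hv : G.hd d ∈ G.Z
  · constructor
    · intro f hf
      exact absurd hv hf.2.2.2.2.1
    · intro f' hf'
      exfalso
      have hv' := hf'.2.2.2.2.1
      apply h4
      simp only [SF.bdD, mem_filter, mem_univ, true_and]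
      refine ⟨hv', ?_⟩
      have := G.hdn d.2.2 d.1 d.2.1 hd.1 hsd.2 hv'
      have h6 : G.dn (G.hd (sh d)) = G.hd d := this
      rw [h6]
      exact hv
  · have hup : G.up (G.hd d) = G.hd (sh d) := G.hup d.2.2 d.1 d.2.1 hd.1 hsd.2 hv
    have hv' : G.hd (sh d) ∉ G.Z := by
      intro h
      apply h3
      simp only [SF.bdU, mem_filter, mem_univ, true_and]
      exact ⟨hv, by rw [hup]; exact h⟩
    have hdn : G.dn (G.hd (sh d)) = G.hd d := G.hdn d.2.2 d.1 d.2.1 hd.1 hsd.2 hv'
    -- (A)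
    have hA : ∀ g : Dart ι, G.val g → G.tl g = G.hd d → G.val (sh g) ∧ G.tl (sh g) = G.hd (sh d) := by
      rintro ⟨j, p, t⟩ hg htg
      have hg1 : G.r ≤ p := hg.1
      have hg2 : p < G.l := hg.2
      have htg' : G.pt (!t) j p = G.hd d := htg
      have hp : p ≠ G.l - 1 := by
        rintro rfl
        exact hv (by rw [← htg']; exact G.hl _ _)
      have hp' : p + 1 < G.l := by omega
      refine ⟨⟨?_, hp'⟩, ?_⟩
      · show G.r ≤ p + 1
        omega
      · show G.pt (!t) j (p + 1) = _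
        rw [← hup, ← htg']
        exact (G.hup _ _ _ hg1 hp' (by rw [htg']; exact hv)).symm
    -- (B)
    have hB : ∀ g' : Dart ι, G.val g' → G.tl g' = G.hd (sh d) →
        ∃ g, g' = sh g ∧ G.val g ∧ G.tl g = G.hd d := by
      rintro ⟨j, p, t⟩ hg htg
      have hg1 : G.r ≤ p := hg.1
      have hg2 : p < G.l := hg.2
      have htg' : G.pt (!t) j p = G.hd (sh d) := htg
      have hp : p ≠ G.r := by
        rintro rfl
        exact hv' (by rw [← htg']; exact G.hr _ _)
      obtain ⟨q, rfl⟩ : ∃ q, p = q + 1 := ⟨p - 1, by omega⟩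
      refine ⟨(j, q, t), rfl, ⟨by show G.r ≤ q; omega, by show q < G.l; omega⟩, ?_⟩
      show G.pt (!t) j q = _
      rw [← hdn, ← htg']
      exact (G.hdn _ _ _ (by omega) hg2 (by rw [htg']; exact hv')).symm
    -- (C)
    have hC : ∀ g : Dart ι, G.val g → G.tl g = G.hd d → (G.light g ↔ G.light (sh g)) := by
      intro g hg htg
      by_contra h
      exact h5 g (by
        simp only [SF.SC, mem_filter, G.mem_darts]
        exact ⟨hg, (hA g hg htg).1, h⟩) htg
    constructor
    · rintro f ⟨hcd, hcf, htf, hne, _, huniq⟩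
      obtain ⟨hA1, hA2⟩ := hA f hcf.1 htf
      have hcsd := hcore.1 hcd
      have hne' : sh f ≠ rev (sh d) := by
        intro h
        exact hne (sh_inj (h.trans (rev_sh d)))
      refine ⟨hcsd, ⟨hA1, ?_, ?_⟩, hA2, hne', hv', ?_⟩
      · rw [← hC f hcf.1 htf]
        exact hcf.2.1
      · exact heavy_rev G hsd hA1 hcsd.2.2 hA2 hne'
      · intro g' hg' htg' hlg'
        obtain ⟨g, rfl, hg, htg⟩ := hB g' hg' htg'
        rw [← hC g hg htg] at hlg'
        rcases huniq g hg htg hlg' with rfl | rfl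
        · exact Or.inl rfl
        · exact Or.inr (rev_sh d).symm
    · rintro f' ⟨hcd, hcf, htf, hne, _, huniq⟩
      obtain ⟨f, rfl, hf, htf'⟩ := hB f' hcf.1 htf
      have hcd' := hcore.2 hcd
      have hne' : f ≠ rev d := by
        rintro rfl
        exact hne (rev_sh d).symm
      refine ⟨f, rfl, hcd', ⟨hf, ?_, ?_⟩, htf', hne', hv, ?_⟩
      · rw [hC f hf htf']
        exact hcf.2.1
      · exact heavy_rev G hd hf hcd'.2.2 htf' hne'
      · intro g hg htg hlg
        obtain ⟨hA1, hA2⟩ := hA g hg htg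
        rw [hC g hg htg] at hlg
        rcases huniq (sh g) hA1 hA2 hlg with h | h
        · exact Or.inl (sh_inj h)
        · exact Or.inr (sh_inj (h.trans (rev_sh d)))

/-- darts with a given head -/
noncomputable def Hd [Fintype ι] (v : V) : Finset (Dart ι) := G.darts.filter (fun d => G.hd d = v)

theorem Hd_card [Fintype ι] {Nd : ℕ} (h : G.DegLe Nd) (v : V) :
    (Hd G v).card ≤ 2 * Fintype.card ι * Nd := by
  have hsub : Hd G v ⊆ (univ : Finset (ι × Bool)).biUnion
      (fun e => ((Finset.Ico G.r G.l).filter (fun o => G.pt e.2 e.1 o = v)).image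
        (fun o => (e.1, o, e.2))) := by
    rintro ⟨i, o, s⟩ hd
    simp only [Hd, mem_filter, G.mem_darts] at hd
    simp only [mem_biUnion, mem_univ, true_and, mem_image, mem_filter, Finset.mem_Ico]
    exact ⟨(i, s), o, ⟨⟨hd.1.1, hd.1.2⟩, hd.2⟩, rfl⟩
  refine (Finset.card_le_card hsub).trans ?_
  have := Finset.card_biUnion_le_card_mul (univ : Finset (ι × Bool))
    (fun e => ((Finset.Ico G.r G.l).filter (fun o => G.pt e.2 e.1 o = v)).image
        (fun o => ((e.1, o, e.2) : Dart ι))) Nd (fun e _ => Finset.card_image_le.trans (h e.2 e.1 v))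
  refine this.trans (le_of_eq ?_)
  rw [Finset.card_univ, Fintype.card_prod, Fintype.card_bool]
  ring

theorem bad : S_bad := by
  intro V ι _ _ G Nd I c hdeg hU hD hSC
  let T : Finset (Dart ι) :=
    (((G.SC ∪ G.SC.image rev) ∪ G.bdU.biUnion (Hd G)) ∪
      G.bdD.biUnion (fun v => (Hd G v).image (fun d => (d.1, d.2.1 - 1, d.2.2)))) ∪
      G.SC.biUnion (fun f => Hd G (G.tl f))
  have hsub : G.Bad ⊆ T := by
    intro d hd
    simp only [SF.Bad, mem_filter, G.mem_darts] at hd
    obtain ⟨hd1, hd2, hd3⟩ := hd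
    by_contra hT
    simp only [T, mem_union, not_or] at hT
    obtain ⟨⟨⟨⟨h1, h2⟩, h3⟩, h4⟩, h5⟩ := hT
    apply hd3
    apply par_of G hd1 hd2 h1
    · intro h
      exact h2 (mem_image.2 ⟨rev d, h, rev_rev d⟩)
    · intro h
      exact h3 (mem_biUnion.2 ⟨_, h, by simp [Hd, G.mem_darts, hd1]⟩)
    · intro h
      apply h4
      refine mem_biUnion.2 ⟨_, h, mem_image.2 ⟨sh d, by simp [Hd, G.mem_darts, hd2], ?_⟩⟩
      simp [sh]
    · intro f hf htf
      apply h5
      exact mem_biUnion.2 ⟨f, hf, by simp [Hd, G.mem_darts, hd1, htf]⟩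
  have hH := Hd_card G hdeg
  set B := 2 * Fintype.card ι * Nd with hB
  have c1 : G.SC.card ≤ c := hSC
  have c2 : (G.SC.image rev).card ≤ c := Finset.card_image_le.trans hSC
  have c3 : (G.bdU.biUnion (Hd G)).card ≤ I * B :=
    (Finset.card_biUnion_le_card_mul _ _ B (fun v _ => hH v)).trans (Nat.mul_le_mul_right _ hU)
  have c4 : (G.bdD.biUnion (fun v => (Hd G v).image
      (fun d => ((d.1, d.2.1 - 1, d.2.2) : Dart ι)))).card ≤ I * B :=
    (Finset.card_biUnion_le_card_mul _ _ B
      (fun v _ => Finset.card_image_le.trans (hH v))).trans (Nat.mul_le_mul_right _ hD)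
  have c5 : (G.SC.biUnion (fun f => Hd G (G.tl f))).card ≤ c * B :=
    (Finset.card_biUnion_le_card_mul _ _ B (fun v _ => hH _)).trans (Nat.mul_le_mul_right _ hSC)
  have hT : T.card ≤ c + c + I * B + I * B + c * B := by
    refine (Finset.card_union_le _ _).trans (Nat.add_le_add ?_ c5)
    refine (Finset.card_union_le _ _).trans (Nat.add_le_add ?_ c4)
    refine (Finset.card_union_le _ _).trans (Nat.add_le_add ?_ c3)
    exact (Finset.card_union_le _ _).trans (Nat.add_le_add c1 c2)
  calc G.Bad.card ≤ T.card := Finset.card_le_card hsub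
    _ ≤ c + c + I * B + I * B + c * B := hT
    _ = 2 * c + 2 * I * B + c * B := by ring

end H323.WEBad
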