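import Pool.Agent.H724.WE.WStm

/-!
# Project WE (helper724), WE-19 (helper323): inflation along a pump preserves all bands
-/

namespace H323.WE

open H724.WE Finset
open scoped Classical

variable {α : Type}

/-- `K` copies -/
private def rp (u : List α) (k : ℕ) : List α := (List.replicate k u).flatten

private theorem rp_zero (u : List α) : rp u 0 = [] := by simp [rp]

private theorem rp_add (u : List α) (k l : ℕ) : rp u (k + l) = rp u k ++ rp u l := by
  unfold rp
  rw [List.replicate_add, List.flatten_append]

private theorem rp_comm (u : List α) (k : ℕ) : rp u k ++ u = u ++ rp u k := by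
  have h1 : rp u (k + 1) = rp u k ++ u := by rw [rp_add]; simp [rp]
  have h2 : rp u (1 + k) = u ++ rp u k := by rw [rp_add]; simp [rp]
  rw [← h1, ← h2, Nat.add_comm]

theorem infl_add (W : ℕ → α) (u : List α) (K : ℕ) (y : ℕ → ℕ) (p t t' : ℕ) :
    infl W u K y p (t + t') = infl W u K y p t ++ infl W u K y (p + t) t' := by
  unfold infl
  rw [List.range_add, List.flatMap_append, List.flatMap_map]
  simp only [Nat.add_assoc]

theorem infl_congr {W : ℕ → α} {u : List α} {K : ℕ} {y : ℕ → ℕ} {p p' t : ℕ}
    (hW : ∀ x < t, W (p + x) = W (p' + x)) (hy : ∀ x < t, y (p + x) = y (p' + x)) :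
    infl W u K y p t = infl W u K y p' t := by
  unfold infl
  rw [List.flatMap_def, List.flatMap_def]
  congr 1
  apply List.map_congr_left
  intro k hk
  rw [List.mem_range] at hk
  rw [hW k hk, hy k hk]

theorem infl_zero (W : ℕ → α) (u : List α) (K : ℕ) (y : ℕ → ℕ) (p : ℕ) :
    infl W u K y p 0 = [] := by simp [infl]

theorem infl_one (W : ℕ → α) (u : List α) (K : ℕ) (y : ℕ → ℕ) (p : ℕ) :
    infl W u K y p 1 = rp u (K * y p) ++ [W p] := by simp [infl, rp]

theorem infl_nil (W : ℕ → α) (u : List α) (K : ℕ) (y : ℕ → ℕ) (p t : ℕ)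
    (h : ∀ x < t, y (p + x) = 0) : infl W u K y p t = (List.range t).map (fun k => W (p + k)) := by
  unfold infl
  rw [List.flatMap_def]
  have : List.map (fun k => (List.replicate (K * y (p + k)) u).flatten ++ [W (p + k)]) (List.range t)
      = List.map (fun k => [W (p + k)]) (List.range t) := by
    apply List.map_congr_left
    intro k hk
    rw [List.mem_range] at hk
    rw [h k hk]
    simp
  rw [this]
  induction t with
  | zero => simp
  | succ t ih =>
    rw [List.range_succ, List.map_append, List.map_append, List.flatten_append]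
    rw [ih (fun x hx => h x (by omega))]
    · simp
    · apply List.map_congr_left
      intro k hk
      rw [List.mem_range] at hk
      rw [h k (by omega)]
      simp

/-- the decomposition of an inflated factor at a stretch `[o₁, o₂)` without insertions
strictly inside. -/
theorem infl_split (W : ℕ → α) (u : List α) (K : ℕ) (y : ℕ → ℕ) (p e f g : ℕ)
    (h : ∀ x, e < x → x < e + (f + 1) → y (p + x) = 0) :
    infl W u K y p (e + (f + 1) + (g + 1)) =
      infl W u K y p e ++ (rp u (K * y (p + e)) ++ ((List.range (f + 1)).map (fun k => W (p + e + k))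
        ++ (rp u (K * y (p + (e + (f + 1)))) ++ (W (p + (e + (f + 1))) ::
          infl W u K y (p + (e + (f + 1) + 1)) g)))) := by
  rw [infl_add, infl_add, List.append_assoc]
  congr 1
  have h1 : infl W u K y (p + e) (f + 1) =
      rp u (K * y (p + e)) ++ (List.range (f + 1)).map (fun k => W (p + e + k)) := by
    rw [Nat.add_comm f 1, infl_add, infl_one, infl_nil, List.range_add]
    · simp [Nat.add_assoc]
    · intro x hx
      have := h (e + (1 + x)) (by omega) (by omega)
      rw [← this]
      congr 1
      omega
  have h2 : infl W u K y (p + (e + (f + 1))) (g + 1) = rp u (K * y (p + (e + (f + 1)))) ++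
      (W (p + (e + (f + 1))) :: infl W u K y (p + (e + (f + 1) + 1)) g) := by
    rw [Nat.add_comm g 1, infl_add, infl_one]
    simp [Nat.add_assoc]
  rw [h1, h2]
  simp

section main

variable {X : Dat α} {y : ℕ → ℕ} {u : List α} {K : ℕ}

private theorem band' (X : Dat α) (s : Bool) (i : Fin X.n) (k : ℕ) (hk : k < X.m i) :
    X.W (X.cp s i k) = X.W (X.cp (!s) i k) := by
  have := X.band i k hk
  cases s <;> simp [Dat.cp, this]

private theorem cp_add (X : Dat α) (s : Bool) (i : Fin X.n) (o k : ℕ) :
    X.cp s i o + k = X.cp s i (o + k) := by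
  cases s <;> simp [Dat.cp, Nat.add_assoc]

/-- The violation data. -/
def Viol (X : Dat α) (y : ℕ → ℕ) (i : Fin X.n) (s : Bool) (o₁ o₂ : ℕ) : Prop :=
  X.tree i ∧ o₁ < o₂ ∧ X.r ≤ o₁ ∧ o₂ < X.l ∧
     y (X.cp s i o₁) = y (X.cp (!s) i o₁) + 1 ∧ y (X.cp (!s) i o₂) = y (X.cp s i o₂) + 1 ∧
     (∀ t k, o₁ < k → k < o₂ → y (X.cp t i k) = 0) ∧
     (∀ k, o₁ < k → k ≤ o₂ → ¬ X.mark i k) ∧
     (∀ j o, X.tree j → X.r ≤ o → o < X.l → (j, o) ≠ (i, o₁) → (j, o) ≠ (i, o₂) →
        y (X.a j + o) = y (X.b j + o))

/-- `(T)` in the second alternative -/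
theorem tree_eq {i : Fin X.n} {s : Bool} {o₁ o₂ : ℕ}
    (h2 : ∀ i o, X.l ≤ o → o ≤ X.m i → y (X.a i + o) = y (X.b i + o))
    (hv : Viol X y i s o₁ o₂)
    (hu : u = (List.range (o₂ - o₁)).map (fun k => X.W (X.cp s i (o₁ + k))))
    (j : Fin X.n) (hj : X.tree j) (β x : ℕ) (hβ : X.r ≤ β) (hβx : β ≤ x)
    (hx : x ≤ X.m j) (hlx : X.l ≤ x) (hno : ¬ (j = i ∧ o₁ < β ∧ β ≤ o₂)) :
    infl X.W u K y (X.a j + β) (x - β) = infl X.W u K y (X.b j + β) (x - β) := by
  obtain ⟨hti, h12, hr1, h2l, hy1, hy2, hz, hmk, hag⟩ := hv
  have agree : ∀ o, X.r ≤ o → o < X.m j → (j, o) ≠ (i, o₁) → (j, o) ≠ (i, o₂) →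
      y (X.a j + o) = y (X.b j + o) := by
    intro o ho hom hn1 hn2
    by_cases hol : o < X.l
    · exact hag j o hj ho hol hn1 hn2
    · exact h2 j o (by omega) (by omega)
  by_cases hc : j = i ∧ β ≤ o₁
  · obtain ⟨rfl, hβ1⟩ := hc
    -- the interesting case
    obtain ⟨f, hf⟩ : ∃ f, o₂ = o₁ + (f + 1) := ⟨o₂ - o₁ - 1, by omega⟩
    obtain ⟨g, hg⟩ : ∃ g, x = o₂ + (g + 1) := ⟨x - o₂ - 1, by omega⟩
    obtain ⟨e, he⟩ : ∃ e, o₁ = β + e := ⟨o₁ - β, by omega⟩
    have hlen : x - β = e + (f + 1) + (g + 1) := by omega
    -- general statement for a side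
    have side : ∀ t, infl X.W u K y (X.cp t j β) (x - β) =
        infl X.W u K y (X.cp t j β) e ++ (rp u (K * y (X.cp t j o₁)) ++ (u
        ++ (rp u (K * y (X.cp t j o₂)) ++ (X.W (X.cp t j o₂) ::
          infl X.W u K y (X.cp t j (o₂ + 1)) g)))) := by
      intro t
      rw [hlen, infl_split]
      · rw [cp_add, cp_add, cp_add, ← he]
        have e1 : β + (e + (f + 1)) = o₂ := by omega
        have e2 : β + (e + (f + 1) + 1) = o₂ + 1 := by omega
        rw [e1, e2]
        have e3 : (List.range (f + 1)).map (fun k => X.W (X.cp t j o₁ + k)) = u := by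
          rw [hu]
          have : o₂ - o₁ = f + 1 := by omega
          rw [this]
          apply List.map_congr_left
          intro k hk
          rw [List.mem_range] at hk
          rw [cp_add]
          by_cases hts : t = s
          · rw [hts]
          · have hts' : t = !s := by cases t <;> cases s <;> simp_all
            rw [hts', band' X s j (o₁ + k) (by omega)]
        rw [e3]
      · intro z hz1 hz2
        rw [cp_add]
        exact hz t (β + z) (by omega) (by omega)
    have hP : infl X.W u K y (X.cp s j β) e = infl X.W u K y (X.cp (!s) j β) e := by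
      apply infl_congr
      · intro z hz'
        rw [cp_add, cp_add]
        exact band' X s j _ (by omega)
      · intro z hz'
        rw [cp_add, cp_add]
        have := agree (β + z) (by omega) (by omega) (by
          intro hh
          simp only [Prod.mk.injEq, true_and] at hh
          omega) (by
          intro hh
          simp only [Prod.mk.injEq, true_and] at hh
          omega)
        cases s <;> simp [Dat.cp, this]
    have hQ : (X.W (X.cp s j o₂) :: infl X.W u K y (X.cp s j (o₂ + 1)) g) =
        (X.W (X.cp (!s) j o₂) :: infl X.W u K y (X.cp (!s) j (o₂ + 1)) g) := by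
      rw [band' X s j o₂ (by omega)]
      congr 1
      apply infl_congr
      · intro z hz'
        rw [cp_add, cp_add]
        exact band' X s j _ (by omega)
      · intro z hz'
        rw [cp_add, cp_add]
        have := agree (o₂ + 1 + z) (by omega) (by omega) (by
          intro hh
          simp only [Prod.mk.injEq, true_and] at hh
          omega) (by
          intro hh
          simp only [Prod.mk.injEq, true_and] at hh
          omega)
        cases s <;> simp [Dat.cp, this]
    have main : infl X.W u K y (X.cp s j β) (x - β) = infl X.W u K y (X.cp (!s) j β) (x - β) := by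
      rw [side s, side (!s), hP, hQ, hy1, hy2]
      congr 1
      rw [Nat.mul_add, Nat.mul_add, Nat.mul_one, rp_add]
      -- u^{KA} u^K u u^{KB} Q = u^{KA} u u^{KB+K} Q
      have hc : rp u K ++ u = u ++ rp u K := rp_comm u K
      rw [Nat.add_comm (K * y (X.cp s j o₂)) K, rp_add u K]
      simp only [List.append_assoc]
      congr 1
      rw [← List.append_assoc, hc, List.append_assoc]
    cases s
    · simpa [Dat.cp] using main
    · simpa [Dat.cp] using main.symm
  · -- no violation in the window
    apply infl_congr
    · intro z hz'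
      rw [Nat.add_assoc, Nat.add_assoc]
      exact X.band j _ (by omega)
    · intro z hz'
      rw [Nat.add_assoc, Nat.add_assoc]
      apply agree (β + z) (by omega) (by omega)
      · intro hh
        simp only [Prod.mk.injEq] at hh
        omega
      · intro hh
        simp only [Prod.mk.injEq] at hh
        apply hno
        refine ⟨hh.1, ?_, by omega⟩
        by_contra hcc
        exact hc ⟨hh.1, by omega⟩

/-- Everything from `(T)`. -/
theorem bands_of_tree
    (hZ : ∀ q ∈ X.Z0, y q = 0)
    (h2 : ∀ i o, X.l ≤ o → o ≤ X.m i → y (X.a i + o) = y (X.b i + o))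
    (hT : ∀ (j : Fin X.n) (β x : ℕ), X.tree j → X.r ≤ β → β ≤ x → x ≤ X.m j → X.l ≤ x →
      (β = X.r ∨ X.mark j β) →
      infl X.W u K y (X.a j + β) (x - β) = infl X.W u K y (X.b j + β) (x - β))
    (i : Fin X.n) : infl X.W u K y (X.a i) (X.m i) = infl X.W u K y (X.b i) (X.m i) := by
  have hrl := X.r_lt
  have hr1 := X.r_pos
  -- high offsets
  have high : ∀ (j : Fin X.n) (β t : ℕ), X.l ≤ β → β + t ≤ X.m j →
      infl X.W u K y (X.a j + β) t = infl X.W u K y (X.b j + β) t := by
    intro j β t hβ ht
    apply infl_congr
    · intro z hz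
      rw [Nat.add_assoc, Nat.add_assoc]
      exact X.band j _ (by omega)
    · intro z hz
      rw [Nat.add_assoc, Nat.add_assoc]
      exact h2 j _ (by omega) (by omega)
  -- (R)
  have hR : ∀ (d β : ℕ) (j : Fin X.n), d = 2 * X.l - 1 - β → X.long j → X.r ≤ β →
      β ≤ 2 * X.l - 1 → (X.l ≤ β ∨ (X.redu j ∧ ∃ i0, X.redu i0 ∧
        ∀ x < X.l, X.W (X.a j + β + x) = X.W (X.a i0 + X.r + x))) →
      infl X.W u K y (X.a j + β) (2 * X.l - 1 - β) = infl X.W u K y (X.b j + β) (2 * X.l - 1 - β) := by
    intro d
    induction d using Nat.strong_induction_on with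
    | _ d ih =>
      intro β j hd hlong hβ hβ2 hcase
      have hmj : 2 * X.l ≤ X.m j := hlong
      by_cases hlβ : X.l ≤ β
      · exact high j β _ hlβ (by omega)
      · obtain ⟨hred, i0, hi0, hwin⟩ := hcase.resolve_left hlβ
        have hcj : 2 * X.l ≤ X.c j := hred.2
        set t := 2 * X.l - 1 - β with ht
        have htl : X.l ≤ t := by omega
        have hconn := X.red j (2 * X.l - 1) (by omega) (by omega)
        -- the closed set
        have key : X.b j + (2 * X.l - 1) ∈ {x | t ≤ x ∧
            infl X.W u K y (x - t) t = infl X.W u K y (X.a j + β) t ∧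
            ∀ z < t, X.W (x - t + z) = X.W (X.a j + β + z)} := by
          refine Conn.mem_of_closed (S := {e : Fin X.n × ℕ | X.c e.1 ≤ e.2 ∧ e.2 ≤ X.m e.1 ∧
            (2 * X.l - 1 < e.2 ∨ (e.2 = 2 * X.l - 1 ∧ e.1 < j))}) ?_ ?_ hconn
          · refine ⟨by omega, ?_, ?_⟩
            · have : X.a j + (2 * X.l - 1) - t = X.a j + β := by omega
              rw [this]
            · intro z hz
              have : X.a j + (2 * X.l - 1) - t = X.a j + β := by omega
              rw [this]
          · rintro ⟨j', o'⟩ ⟨hc', hm', ho'⟩
            simp only at hc' hm' ho'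
            have ho2 : 2 * X.l - 1 ≤ o' := by omega
            obtain ⟨β', hβ'⟩ : ∃ β', o' = β' + t := ⟨o' - t, by omega⟩
            have hlj' : X.long j' := by
              rcases X.m_cases j' with h | h
              · omega
              · exact h
            have hlj'' : 2 * X.l ≤ X.m j' := hlj'
            have hββ' : β ≤ β' := by omega
            -- windows of W
            have hWW : ∀ z < t, X.W (X.a j' + β' + z) = X.W (X.b j' + β' + z) := by
              intro z hz
              rw [Nat.add_assoc, Nat.add_assoc]
              exact X.band j' _ (by omega)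
            have hII : (∀ z < t, X.W (X.a j' + β' + z) = X.W (X.a j + β + z)) →
                infl X.W u K y (X.a j' + β') t = infl X.W u K y (X.b j' + β') t := by
              intro hw
              by_cases hlb : X.l ≤ β'
              · exact high j' β' t hlb (by omega)
              · have hmark : ∀ x < X.l, X.W (X.a j' + β' + x) = X.W (X.a i0 + X.r + x) := by
                  intro x hx
                  rw [hw x (by omega), hwin x hx]
                rcases X.c_cases j' with hcc | hcc
                · -- tree
                  have := hT j' β' o' ⟨hlj'', hcc⟩ (by omega) (by omega) hm' (by omega)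
                    (Or.inr ⟨i0, hi0, hmark⟩)
                  have e1 : o' - β' = t := by omega
                  rwa [e1] at this
                · -- redundant
                  have hlt : β < β' := by omega
                  have := ih (2 * X.l - 1 - β') (by omega) β' j' rfl hlj' (by omega) (by omega)
                    (Or.inr ⟨⟨hlj'', hcc⟩, i0, hi0, hmark⟩)
                  have e1 : t = (2 * X.l - 1 - β') + (t - (2 * X.l - 1 - β')) := by omega
                  rw [e1, infl_add, infl_add, this]
                  congr 1
                  have e2 : X.a j' + β' + (2 * X.l - 1 - β') = X.a j' + (2 * X.l - 1) := by omega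
                  have e3 : X.b j' + β' + (2 * X.l - 1 - β') = X.b j' + (2 * X.l - 1) := by omega
                  rw [e2, e3]
                  exact high j' _ _ (by omega) (by omega)
            have ea : sa X.a (j', o') = X.a j' + β' + t := by simp [sa, hβ', Nat.add_assoc]
            have eb : sa X.b (j', o') = X.b j' + β' + t := by simp [sa, hβ', Nat.add_assoc]
            rw [ea, eb]
            simp only [Set.mem_ofPred_eq, Nat.add_sub_cancel]
            constructor
            · rintro ⟨_, h3, h4⟩
              refine ⟨by omega, ?_, ?_⟩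
              · rw [← hII h4, h3]
              · intro z hz
                rw [← hWW z hz, h4 z hz]
            · rintro ⟨_, h3, h4⟩
              have h5 : ∀ z < t, X.W (X.a j' + β' + z) = X.W (X.a j + β + z) := by
                intro z hz
                rw [hWW z hz, h4 z hz]
              refine ⟨by omega, ?_, h5⟩
              rw [hII h5, h3]
        obtain ⟨_, h3, _⟩ := key
        have e1 : X.b j + (2 * X.l - 1) - t = X.b j + β := by omega
        rw [e1] at h3
        exact h3.symm
  -- conclusion
  have ha := X.S_le _ (X.am_mem i)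
  have hb := X.S_le _ (X.bm_mem i)
  have cple : ∀ s o, o ≤ X.m i → X.cp s i o ≤ X.L := by
    intro s o ho
    cases s <;> simp only [Dat.cp] <;> simp <;> omega
  rcases X.m_cases i with hm | hm
  · apply infl_congr
    · intro z hz
      exact X.band i z hz
    · intro z hz
      have h3 : ∀ s, y (X.cp s i z) = 0 := by
        intro s
        apply hZ
        simp only [Dat.Z0, mem_filter, mem_range]
        refine ⟨by have := cple s z (by omega); omega, Or.inr (Or.inl ⟨i, s, z, hm, by omega, rfl⟩)⟩
      have h4 := h3 false
      have h5 := h3 true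
      simp only [Dat.cp] at h4 h5
      simp at h4 h5
      rw [h4, h5]
  · have e1 : X.m i = X.r + ((2 * X.l - 1 - X.r) + (X.m i - (2 * X.l - 1))) := by omega
    rw [e1, infl_add, infl_add, infl_add, infl_add]
    have p1 : infl X.W u K y (X.a i) X.r = infl X.W u K y (X.b i) X.r := by
      apply infl_congr
      · intro z hz
        exact X.band i z (by omega)
      · intro z hz
        have h3 : ∀ s, y (X.cp s i z) = 0 := by
          intro s
          apply hZ
          simp only [Dat.Z0, mem_filter, mem_range]
          refine ⟨by have := cple s z (by omega); omega,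
            Or.inr (Or.inr ⟨i, s, z, hm, Or.inl (by omega), rfl⟩)⟩
        have h4 := h3 false
        have h5 := h3 true
        simp only [Dat.cp] at h4 h5
        simp at h4 h5
        rw [h4, h5]
    have p2 : infl X.W u K y (X.a i + X.r) (2 * X.l - 1 - X.r) =
        infl X.W u K y (X.b i + X.r) (2 * X.l - 1 - X.r) := by
      rcases X.c_cases i with hc | hc
      · exact hT i X.r (2 * X.l - 1) ⟨hm, hc⟩ le_rfl (by omega) (by omega) (by omega) (Or.inl rfl)
      · exact hR _ X.r i rfl hm le_rfl (by omega) (Or.inr ⟨⟨hm, hc⟩, i, ⟨hm, hc⟩, fun x _ => rfl⟩)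
    have p3 : infl X.W u K y (X.a i + X.r + (2 * X.l - 1 - X.r)) (X.m i - (2 * X.l - 1)) =
        infl X.W u K y (X.b i + X.r + (2 * X.l - 1 - X.r)) (X.m i - (2 * X.l - 1)) := by
      have e2 : X.a i + X.r + (2 * X.l - 1 - X.r) = X.a i + (2 * X.l - 1) := by omega
      have e3 : X.b i + X.r + (2 * X.l - 1 - X.r) = X.b i + (2 * X.l - 1) := by omega
      rw [e2, e3]
      exact high i _ _ (by omega) (by omega)
    rw [p1, p2, p3]

end main

theorem pumpW : S_pumpW := by
  intro α X y hy
  obtain ⟨hZ, h2, h3⟩ := hy
  rcases h3 with h3 | ⟨i, s, o₁, o₂, hv⟩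
  · refine ⟨[X.W 0], by simp, ?_⟩
    intro K i
    apply bands_of_tree hZ h2
    intro j β x hj hβ hβx hx hlx _
    apply infl_congr
    · intro z hz
      rw [Nat.add_assoc, Nat.add_assoc]
      exact X.band j _ (by omega)
    · intro z hz
      rw [Nat.add_assoc, Nat.add_assoc]
      by_cases hl : β + z < X.l
      · exact h3 j _ hj (by omega) hl
      · exact h2 j _ (by omega) (by omega)
  · refine ⟨(List.range (o₂ - o₁)).map (fun k => X.W (X.cp s i (o₁ + k))), ?_, ?_⟩
    · have : 0 < o₂ - o₁ := by have := hv.2.1; omega
      intro h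
      have := congrArg List.length h
      simp at this
      omega
    · intro K i'
      apply bands_of_tree hZ h2
      intro j β x hj hβ hβx hx hlx hmk
      apply tree_eq h2 hv rfl j hj β x hβ hβx hx hlx
      rintro ⟨rfl, h4, h5⟩
      rcases hmk with rfl | hmk
      · have := hv.2.2.1
        omega
      · exact hv.2.2.2.2.2.2.2.1 β h4 h5 hmk

end H323.WE
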